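import Mathlib

/-! # The averaged map: definitions and local bounds -/

namespace Pool.Agent.W984.LD

open Filter Topology

set_option linter.unusedSectionVars false

abbrev Eu (k : ℕ) := EuclideanSpace ℝ (Fin k)

/-- data for the averaged map -/
structure Cfg (k m : ℕ) where
  V : Type
  fV : Fintype V
  nV : Nonempty V
  pos : V → Eu k
  z : V → Eu k
  bin : V → Fin m
  β : ℝ
  ε : ℝ
  M : ℝ
  C0 : ℝ
  d : ℝ
  hβ : 0 < β
  hε : 0 < ε
  hM0 : 0 ≤ M
  hd : 0 ≤ d
  hzd : ∀ q, ‖z q - pos q‖ ≤ d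
  hadj : ∀ q q', ‖pos q - pos q'‖ ≤ 1 →
    ‖z q - z q'‖ ^ 2 ≤ ε ^ 2 * (|((bin q : ℕ) : ℝ) - ((bin q' : ℕ) : ℝ)| + 1)
  hC0 : ∀ q a, z q a + 8 * ε < C0
  hM : ∀ q q' a, z q' a + 8 * ε < z q a + M / 4

namespace Cfg

variable {k m : ℕ} (D : Cfg k m)

instance : Fintype D.V := D.fV
instance : Nonempty D.V := D.nV

/-- cut-off level -/
noncomputable def c : ℝ := Real.exp (-D.β / 4)

theorem c_pos : 0 < D.c := Real.exp_pos _

/-- single weight -/
noncomputable def h (q : D.V) (p : Eu k) : ℝ :=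
  max 0 (Real.exp (-D.β * ‖p - D.pos q‖) - D.c)

/-- class weight -/
noncomputable def W (j : Fin m) (p : Eu k) : ℝ :=
  Finset.univ.sup' Finset.univ_nonempty (fun q : D.V => if D.bin q = j then D.h q p else 0)

/-- total weight -/
noncomputable def S (p : Eu k) : ℝ := ∑ j, D.W j p

/-- normalised weight -/
noncomputable def w (j : Fin m) (p : Eu k) : ℝ := D.W j p / D.S p

/-- class centre function, single term -/
noncomputable def zt (j : Fin m) (a : Fin k) (q : D.V) (p : Eu k) : ℝ :=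
  if D.bin q = j then
    D.z q a + 8 * D.ε * ‖p - D.pos q‖ + D.M * max 0 (‖p - D.pos q‖ - 1 / 2) else D.C0

/-- class centre function -/
noncomputable def Z (j : Fin m) (a : Fin k) (p : Eu k) : ℝ :=
  Finset.univ.inf' Finset.univ_nonempty (fun q : D.V => D.zt j a q p)

/-- the averaged map -/
noncomputable def Phi (p : Eu k) : Eu k :=
  WithLp.toLp 2 (fun a => ∑ j, D.w j p * D.Z j a p)

theorem h_nonneg (q : D.V) (p : Eu k) : 0 ≤ D.h q p := le_max_left _ _

theorem W_nonneg (j : Fin m) (p : Eu k) : 0 ≤ D.W j p := by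
  obtain ⟨q⟩ := D.nV
  refine le_trans ?_ (Finset.le_sup' (fun q : D.V => if D.bin q = j then D.h q p else 0)
    (Finset.mem_univ q))
  show 0 ≤ (if D.bin q = j then D.h q p else 0)
  split_ifs
  · exact D.h_nonneg q p
  · exact le_rfl

theorem h_le_W (q : D.V) (p : Eu k) : D.h q p ≤ D.W (D.bin q) p := by
  have := Finset.le_sup' (fun q' : D.V => if D.bin q' = D.bin q then D.h q' p else 0)
    (Finset.mem_univ q)
  change (if D.bin q = D.bin q then D.h q p else 0) ≤ D.W (D.bin q) p at this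
  rwa [if_pos rfl] at this

theorem near_of_W_pos (j : Fin m) (p : Eu k) (hW : 0 < D.W j p) :
    ∃ q, D.bin q = j ∧ ‖p - D.pos q‖ < 1 / 4 ∧
      D.W j p = Real.exp (-D.β * ‖p - D.pos q‖) - D.c := by
  obtain ⟨q, -, hq⟩ := Finset.exists_mem_eq_sup' Finset.univ_nonempty
    (fun q : D.V => if D.bin q = j then D.h q p else 0)
  change D.W j p = if D.bin q = j then D.h q p else 0 at hq
  have hb : D.bin q = j := by
    by_contra hne
    rw [if_neg hne] at hq
    exact absurd hq hW.ne'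
  rw [if_pos hb] at hq
  have hpos : 0 < Real.exp (-D.β * ‖p - D.pos q‖) - D.c := by
    by_contra hle
    rw [not_lt] at hle
    have : D.h q p = 0 := max_eq_left hle
    rw [this] at hq
    exact absurd hq hW.ne'
  have hh : D.h q p = Real.exp (-D.β * ‖p - D.pos q‖) - D.c := max_eq_right hpos.le
  refine ⟨q, hb, ?_, by rw [hq, hh]⟩
  have h1 : Real.exp (-D.β / 4) < Real.exp (-D.β * ‖p - D.pos q‖) := by
    have : D.c < Real.exp (-D.β * ‖p - D.pos q‖) := by linarith
    exact this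
  rw [Real.exp_lt_exp] at h1
  have hβ := D.hβ
  by_contra hge
  rw [not_lt] at hge
  nlinarith

theorem Z_near (j : Fin m) (a : Fin k) (p : Eu k) (q0 : D.V) (hb : D.bin q0 = j)
    (hn : ‖p - D.pos q0‖ < 1 / 4) :
    ∃ q, D.bin q = j ∧ ‖p - D.pos q‖ < 1 / 2 ∧
      D.Z j a p = D.z q a + 8 * D.ε * ‖p - D.pos q‖ ∧ |D.Z j a p - D.z q0 a| ≤ 2 * D.ε := by
  have hε := D.hε
  obtain ⟨q, -, hq⟩ := Finset.exists_mem_eq_inf' Finset.univ_nonempty
    (fun q : D.V => D.zt j a q p)
  change D.Z j a p = D.zt j a q p at hq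
  have hle0 : D.Z j a p ≤ D.zt j a q0 p := Finset.inf'_le _ (Finset.mem_univ q0)
  have hz0 : D.zt j a q0 p = D.z q0 a + 8 * D.ε * ‖p - D.pos q0‖ := by
    unfold zt
    rw [if_pos hb, max_eq_left (by linarith)]
    ring
  have hub : D.Z j a p ≤ D.z q0 a + 2 * D.ε := by
    rw [hz0] at hle0
    nlinarith
  have hbq : D.bin q = j := by
    by_contra hne
    have : D.zt j a q p = D.C0 := by unfold zt; rw [if_neg hne]
    rw [this] at hq
    have := D.hC0 q0 a
    linarith
  have hzq : D.zt j a q p =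
      D.z q a + 8 * D.ε * ‖p - D.pos q‖ + D.M * max 0 (‖p - D.pos q‖ - 1 / 2) := by
    unfold zt; rw [if_pos hbq]
  have hr34 : ‖p - D.pos q‖ ≤ 3 / 4 := by
    by_contra hgt
    rw [not_le] at hgt
    have h1 : 1 / 4 ≤ max 0 (‖p - D.pos q‖ - 1 / 2) := le_max_of_le_right (by linarith)
    have h2 : D.M * (1 / 4) ≤ D.M * max 0 (‖p - D.pos q‖ - 1 / 2) :=
      mul_le_mul_of_nonneg_left h1 D.hM0
    have h3 := D.hM q q0 a
    have h4 : 0 ≤ 8 * D.ε * ‖p - D.pos q‖ := by positivity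
    rw [hzq] at hq
    linarith
  have hadj : ‖D.pos q - D.pos q0‖ ≤ 1 := by
    have : D.pos q - D.pos q0 = (p - D.pos q0) - (p - D.pos q) := by abel
    rw [this]
    refine (norm_sub_le _ _).trans ?_
    linarith
  have hzz : ‖D.z q - D.z q0‖ ≤ D.ε := by
    have h1 := D.hadj q q0 hadj
    rw [hbq, hb, sub_self, abs_zero, zero_add, mul_one] at h1
    exact (sq_le_sq₀ (norm_nonneg _) hε.le).1 h1
  have hcoord : |D.z q a - D.z q0 a| ≤ D.ε := by
    have h1 := PiLp.norm_apply_le (D.z q - D.z q0) a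
    rw [Real.norm_eq_abs] at h1
    exact le_trans (by simpa using h1) hzz
  have hlow : D.z q0 a - D.ε + 8 * D.ε * ‖p - D.pos q‖ ≤ D.Z j a p := by
    rw [hq, hzq]
    have h1 : 0 ≤ D.M * max 0 (‖p - D.pos q‖ - 1 / 2) :=
      mul_nonneg D.hM0 (le_max_left _ _)
    have := (abs_le.1 hcoord).1
    linarith
  have hr : ‖p - D.pos q‖ < 1 / 2 := by
    by_contra hge
    rw [not_lt] at hge
    nlinarith
  refine ⟨q, hbq, hr, ?_, ?_⟩
  · rw [hq, hzq, max_eq_left (by linarith)]
    ring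
  · rw [abs_le]
    constructor
    · have h4 : 0 ≤ 8 * D.ε * ‖p - D.pos q‖ := by positivity
      linarith
    · linarith

end Cfg

/-- if `f` is differentiable at `p` and `f ≤ f p + L |· - p|` near `p` then `|Df(p)| ≤ L`. -/
theorem norm_fderiv_le_of_touch {E : Type*} [NormedAddCommGroup E] [NormedSpace ℝ E] {f : E → ℝ}
    {p : E} (hf : DifferentiableAt ℝ f p) {L : ℝ} (hL : 0 ≤ L)
    (h : ∀ᶠ x in 𝓝 p, f x ≤ f p + L * ‖x - p‖) : ‖fderiv ℝ f p‖ ≤ L := by
  have key : ∀ v, fderiv ℝ f p v ≤ L * ‖v‖ := by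
    intro v
    have h1 : HasDerivAt (fun t : ℝ => f (p + t • v)) (fderiv ℝ f p v) 0 := by
      have h2 : HasDerivAt (fun t : ℝ => p + t • v) v 0 := by
        have := ((hasDerivAt_id (0 : ℝ)).smul_const v).const_add p
        simpa using this
      have h3 : HasFDerivAt f (fderiv ℝ f p) (p + (0 : ℝ) • v) := by
        simpa using hf.hasFDerivAt
      exact h3.comp_hasDerivAt (0 : ℝ) h2
    have h4 := h1.tendsto_slope_zero_right
    have h5 : ∀ᶠ t : ℝ in 𝓝[>] 0, t⁻¹ • (f (p + (0 + t) • v) - f (p + (0 : ℝ) • v)) ≤ L * ‖v‖ := by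
      have hc : Tendsto (fun t : ℝ => p + t • v) (𝓝[>] 0) (𝓝 p) := by
        have : Tendsto (fun t : ℝ => p + t • v) (𝓝 0) (𝓝 (p + (0 : ℝ) • v)) := by
          apply Continuous.tendsto
          fun_prop
        rw [zero_smul, add_zero] at this
        exact this.mono_left nhdsWithin_le_nhds
      filter_upwards [hc.eventually h, self_mem_nhdsWithin] with t ht ht0
      have ht0' : (0 : ℝ) < t := ht0
      rw [zero_add, zero_smul, add_zero, smul_eq_mul]
      rw [add_sub_cancel_left, norm_smul, Real.norm_eq_abs, abs_of_pos ht0'] at ht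
      rw [inv_mul_le_iff₀ ht0']
      linarith
    exact le_of_tendsto h4 h5
  apply ContinuousLinearMap.opNorm_le_bound _ hL
  intro v
  rw [Real.norm_eq_abs, abs_le]
  constructor
  · have := key (-v)
    rw [map_neg, norm_neg] at this
    linarith
  · exact key v

namespace Cfg

variable {k m : ℕ} (D : Cfg k m)

theorem fderiv_Z_le (j : Fin m) (a : Fin k) (p : Eu k) (hW : 0 < D.W j p)
    (hdiff : DifferentiableAt ℝ (D.Z j a) p) : ‖fderiv ℝ (D.Z j a) p‖ ≤ 8 * D.ε := by
  have hε := D.hε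
  obtain ⟨q0, hb0, hn0, -⟩ := D.near_of_W_pos j p hW
  obtain ⟨q, hb, hn, hZ, -⟩ := D.Z_near j a p q0 hb0 hn0
  apply norm_fderiv_le_of_touch hdiff (by positivity)
  have hopen : ∀ᶠ x in 𝓝 p, ‖x - D.pos q‖ < 1 / 2 := by
    have hc : Continuous fun x : Eu k => ‖x - D.pos q‖ := by fun_prop
    exact (hc.tendsto p).eventually (gt_mem_nhds hn)
  filter_upwards [hopen] with x hx
  have h1 : D.Z j a x ≤ D.zt j a q x := Finset.inf'_le _ (Finset.mem_univ q)
  have h2 : D.zt j a q x = D.z q a + 8 * D.ε * ‖x - D.pos q‖ := by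
    unfold zt
    rw [if_pos hb, max_eq_left (by linarith)]
    ring
  rw [hZ]
  rw [h2] at h1
  have h3 : ‖x - D.pos q‖ ≤ ‖p - D.pos q‖ + ‖x - p‖ := by
    have : x - D.pos q = (p - D.pos q) + (x - p) := by abel
    rw [this]
    exact norm_add_le _ _
  nlinarith

theorem fderiv_W_le (j : Fin m) (p : Eu k) (hW : 0 < D.W j p)
    (hdiff : DifferentiableAt ℝ (D.W j) p) :
    ‖fderiv ℝ (D.W j) p‖ ≤ D.β * (D.W j p + D.c) := by
  have hβ := D.hβ
  obtain ⟨q, hb, hn, hval⟩ := D.near_of_W_pos j p hW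
  have hneg : ‖fderiv ℝ (fun x => -(D.W j x)) p‖ ≤ D.β * (D.W j p + D.c) := by
    apply norm_fderiv_le_of_touch hdiff.neg
      (mul_nonneg hβ.le (add_nonneg (D.W_nonneg j p) D.c_pos.le))
    refine Eventually.of_forall fun x => ?_
    have h1 : Real.exp (-D.β * ‖x - D.pos q‖) - D.c ≤ D.W j x := by
      refine le_trans (le_max_right 0 _) ?_
      have := D.h_le_W q x
      rw [hb] at this
      exact this
    have h2 : Real.exp (-D.β * ‖p - D.pos q‖) * (1 - D.β * ‖x - p‖) ≤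
        Real.exp (-D.β * ‖x - D.pos q‖) := by
      have h3 : ‖x - D.pos q‖ ≤ ‖p - D.pos q‖ + ‖x - p‖ := by
        have : x - D.pos q = (p - D.pos q) + (x - p) := by abel
        rw [this]
        exact norm_add_le _ _
      calc Real.exp (-D.β * ‖p - D.pos q‖) * (1 - D.β * ‖x - p‖)
          ≤ Real.exp (-D.β * ‖p - D.pos q‖) * Real.exp (-(D.β * ‖x - p‖)) := by
            apply mul_le_mul_of_nonneg_left _ (Real.exp_pos _).le
            have := Real.add_one_le_exp (-(D.β * ‖x - p‖))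
            linarith
        _ = Real.exp (-D.β * ‖p - D.pos q‖ - D.β * ‖x - p‖) := by
            rw [← Real.exp_add]; ring_nf
        _ ≤ Real.exp (-D.β * ‖x - D.pos q‖) := by
            rw [Real.exp_le_exp]
            nlinarith
    have h4 : Real.exp (-D.β * ‖p - D.pos q‖) = D.W j p + D.c := by rw [hval]; ring
    rw [h4] at h2
    change -(D.W j x) ≤ -(D.W j p) + D.β * (D.W j p + D.c) * ‖x - p‖
    nlinarith
  have h5 : fderiv ℝ (fun x => -(D.W j x)) p = -fderiv ℝ (D.W j) p := by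
    exact fderiv_neg (𝕜 := ℝ) (f := D.W j) (x := p)
  rwa [h5, norm_neg] at hneg

theorem fderiv_W_zero (j : Fin m) (p : Eu k) (hW : D.W j p = 0) :
    fderiv ℝ (D.W j) p = 0 := by
  apply IsLocalMin.fderiv_eq_zero
  refine Eventually.of_forall fun x => ?_
  rw [hW]
  exact D.W_nonneg j x

end Cfg

end Pool.Agent.W984.LD
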