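import Pool.Agent.W984.LD.Det

/-! # The tuple bound -/

namespace Pool.Agent.W984.LD

open Matrix Finset

section

variable {k m : ℕ} (ζ : Fin m → Fin k → ℝ) (τ : ℝ)

/-- height of an index -/
def ht {k m : ℕ} (x : Fin m ⊕ Fin k) : ℝ :=
  Sum.elim (fun j : Fin m => ((j : ℕ) : ℝ)) (fun _ : Fin k => (m : ℝ)) x

theorem ht_nonneg (x : Fin m ⊕ Fin k) : 0 ≤ ht x := by
  rcases x with j | c <;> simp [ht]

theorem ht_le (x : Fin m ⊕ Fin k) : ht x ≤ m := by
  rcases x with j | c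
  · simp only [ht, Sum.elim_inl]; exact_mod_cast j.2.le
  · simp [ht]

theorem sum_diff (H : Fin (k + 1) → ℝ) :
    ∑ i : Fin k, (H i.succ - H i.castSucc) = H (Fin.last k) - H 0 := by
  rw [Finset.sum_sub_distrib]
  have h1 := Fin.sum_univ_succ H
  have h2 := Fin.sum_univ_castSucc H
  linarith

/-- the bound for strictly sorted tuples -/
theorem sorted_bound (s : Fin (k + 1) → Fin m ⊕ Fin k)
    (hs : StrictMono (fun i => (toLex (s i) : Fin m ⊕ₗ Fin k)))
    (act : Fin m → Prop) (hact : ∀ i j, s i = Sum.inl j → act j)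
    (ρ T e1 E0 : ℝ) (hρ : 0 ≤ ρ) (hT : 0 ≤ T) (he1 : 0 ≤ e1) (hE0 : 0 ≤ E0)
    (hr0 : ∀ j, act j → 1 + ∑ a, ζ j a ^ 2 ≤ ρ ^ 2) (hτρ : τ ^ 2 ≤ ρ ^ 2)
    (hdiff : ∀ j j' : Fin m, j < j' → act j → act j' →
      ∑ a, (ζ j' a - ζ j a) ^ 2 ≤ e1 * (((j' : ℕ) : ℝ) - ((j : ℕ) : ℝ)) + E0)
    (htot : e1 * m + k * (E0 + τ ^ 2) ≤ k * T ^ 2) :
    |((PP ζ τ).submatrix id s).det| ≤ ρ * T ^ k := by
  classical
  set A : Matrix (Fin (k + 1)) (Fin (k + 1)) ℝ := ((PP ζ τ).submatrix id s)ᵀ with hA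
  have hdetA : ((PP ζ τ).submatrix id s).det = A.det := by rw [hA, Matrix.det_transpose]
  rw [hdetA]
  set c : Fin k → ℝ := fun i => if (s i.succ).isLeft then 1 else 0 with hc
  set Bm : Matrix (Fin (k + 1)) (Fin (k + 1)) ℝ := fun i j =>
    Fin.cases (A 0 j) (fun i' => A i'.succ j - c i' * A i'.castSucc j) i with hB
  have hdet : A.det = Bm.det := by
    apply Matrix.det_eq_of_forall_row_eq_smul_add_pred c
    · intro j; simp [hB]
    · intro i j; simp [hB]
  rw [hdet]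
  have hcase : ∀ i : Fin k, Bm i.succ ⬝ᵥ Bm i.succ ≤
      e1 * (ht (s i.succ) - ht (s i.castSucc)) + (E0 + τ ^ 2) := by
    intro i
    have hlt : toLex (s i.castSucc) < toLex (s i.succ) := hs (Fin.castSucc_lt_succ)
    rcases hs2 : s i.succ with j' | c'
    · -- both left
      rcases hs1 : s i.castSucc with j | c''
      · rw [hs1, hs2] at hlt
        have hjj : j < j' := by
          have := Sum.Lex.toLex_lt_toLex.1 hlt
          simpa using this
        have hrow : ∀ x, Bm i.succ x = Fin.cases 0 (fun a => ζ j' a - ζ j a) x := by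
          intro x
          refine Fin.cases ?_ (fun a => ?_) x
          · simp [hB, hc, hA, hs1, hs2, PP]
          · simp [hB, hc, hA, hs1, hs2, PP]
        have : Bm i.succ ⬝ᵥ Bm i.succ = ∑ a, (ζ j' a - ζ j a) ^ 2 := by
          simp only [dotProduct, hrow]
          rw [Fin.sum_univ_succ]
          simp [sq]
        rw [this]
        have h1 := hdiff j j' hjj (hact _ _ hs1) (hact _ _ hs2)
        simp only [ht, Sum.elim_inl]
        nlinarith [sq_nonneg τ]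
      · exfalso
        rw [hs1, hs2] at hlt
        have := Sum.Lex.toLex_lt_toLex.1 hlt
        simp at this
    · have hrow : ∀ x, Bm i.succ x = Fin.cases 0 (fun a => if a = c' then τ else 0) x := by
        intro x
        refine Fin.cases ?_ (fun a => ?_) x
        · simp [hB, hc, hA, hs2, PP]
        · simp [hB, hc, hA, hs2, PP]
      have : Bm i.succ ⬝ᵥ Bm i.succ = τ ^ 2 := by
        simp only [dotProduct, hrow]
        rw [Fin.sum_univ_succ]
        simp [sq]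
      rw [this]
      have h1 : ht (s i.castSucc) ≤ m := ht_le _
      have h2 : ht (Sum.inr c' : Fin m ⊕ Fin k) = m := by simp [ht]
      rw [h2]
      nlinarith [mul_nonneg he1 (sub_nonneg.2 h1)]
  apply abs_det_le_amgm _ ρ T hρ hT
  · -- first row
    have hrow : ∀ x, Bm 0 x = A 0 x := by intro x; simp [hB]
    rcases hs0 : s 0 with j | c'
    · have : Bm 0 ⬝ᵥ Bm 0 = 1 + ∑ a, ζ j a ^ 2 := by
        simp only [dotProduct, hrow]
        rw [Fin.sum_univ_succ]
        simp [hA, hs0, PP, sq]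
      rw [this]
      exact hr0 j (hact _ _ hs0)
    · have : Bm 0 ⬝ᵥ Bm 0 = τ ^ 2 := by
        simp only [dotProduct, hrow]
        rw [Fin.sum_univ_succ]
        simp [hA, hs0, PP, sq]
      rw [this]
      exact hτρ
  · refine (Finset.sum_le_sum fun i _ => hcase i).trans ?_
    rw [Finset.sum_add_distrib, ← Finset.mul_sum, sum_diff (fun i => ht (s i))]
    simp only [Finset.sum_const, Finset.card_univ, Fintype.card_fin, nsmul_eq_mul]
    have h1 : ht (s (Fin.last k)) - ht (s 0) ≤ m := by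
      have := ht_le (s (Fin.last k))
      have := ht_nonneg (s 0)
      linarith
    have h2 := mul_le_mul_of_nonneg_left h1 he1
    linarith

/-- the bound for arbitrary tuples -/
theorem tuple_bound (s : Fin (k + 1) → Fin m ⊕ Fin k)
    (act : Fin m → Prop) (hact : ∀ i j, s i = Sum.inl j → act j)
    (ρ T e1 E0 : ℝ) (hρ : 0 ≤ ρ) (hT : 0 ≤ T) (he1 : 0 ≤ e1) (hE0 : 0 ≤ E0)
    (hr0 : ∀ j, act j → 1 + ∑ a, ζ j a ^ 2 ≤ ρ ^ 2) (hτρ : τ ^ 2 ≤ ρ ^ 2)
    (hdiff : ∀ j j' : Fin m, j < j' → act j → act j' →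
      ∑ a, (ζ j' a - ζ j a) ^ 2 ≤ e1 * (((j' : ℕ) : ℝ) - ((j : ℕ) : ℝ)) + E0)
    (htot : e1 * m + k * (E0 + τ ^ 2) ≤ k * T ^ 2) :
    |((PP ζ τ).submatrix id s).det| ≤ ρ * T ^ k := by
  classical
  by_cases hinj : Function.Injective s
  · set s' : Fin (k + 1) → Fin m ⊕ₗ Fin k := fun i => toLex (s i) with hs'
    set σ := Tuple.sort s' with hσ
    have hmono : Monotone (s' ∘ σ) := Tuple.monotone_sort s'
    have hinj' : Function.Injective (s' ∘ σ) :=
      (toLex.injective.comp hinj).comp σ.injective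
    have hstrict : StrictMono (s' ∘ σ) := hmono.strictMono_of_injective hinj'
    have h1 := sorted_bound ζ τ (s ∘ σ) hstrict act (fun i j h => hact (σ i) j h) ρ T e1 E0
      hρ hT he1 hE0 hr0 hτρ hdiff htot
    have h2 : ((PP ζ τ).submatrix id (s ∘ σ)).det =
        ((Equiv.Perm.sign σ : ℤ) : ℝ) * ((PP ζ τ).submatrix id s).det := by
      have := Matrix.det_permute' σ ((PP ζ τ).submatrix id s)
      rw [← this]
      rfl
    rw [h2, abs_mul] at h1
    have h3 : |((Equiv.Perm.sign σ : ℤ) : ℝ)| = 1 := by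
      rcases Int.units_eq_one_or (Equiv.Perm.sign σ) with h | h <;> simp [h]
    rwa [h3, one_mul] at h1
  · rw [Function.not_injective_iff] at hinj
    obtain ⟨i, j, hij, hne⟩ := hinj
    have : ((PP ζ τ).submatrix id s).det = 0 := by
      apply Matrix.det_zero_of_column_eq hne
      intro l
      simp [hij]
    rw [this, abs_zero]
    positivity

end

/-- **The determinant bound.** -/
theorem det_bound {k m : ℕ} (ζ : Fin m → Fin k → ℝ) (lam : Fin m → ℝ) (g : Fin m → Fin k → ℝ)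
    (B : Fin k → Fin k → ℝ) (τ ρ T e1 E0 κ Γ : ℝ) (γ : Fin m → ℝ)
    (hτ : 0 < τ) (hρ : 0 ≤ ρ) (hT : 0 ≤ T) (he1 : 0 ≤ e1) (hE0 : 0 ≤ E0) (hκ : 0 ≤ κ)
    (hlam : ∑ j, lam j = 1) (hg : ∀ b, ∑ j, g j b = 0)
    (hγ0 : ∀ j, 0 ≤ γ j) (hγ : ∀ j, lam j ^ 2 + ∑ b, g j b ^ 2 ≤ γ j ^ 2)
    (hΓ : ∑ j, γ j ≤ Γ)
    (hB : ∀ c, ∑ b, B c b ^ 2 ≤ κ ^ 2)
    (hr0 : ∀ j, γ j ≠ 0 → 1 + ∑ a, ζ j a ^ 2 ≤ ρ ^ 2) (hτρ : τ ^ 2 ≤ ρ ^ 2)
    (hdiff : ∀ j j' : Fin m, j < j' → γ j ≠ 0 → γ j' ≠ 0 →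
      ∑ a, (ζ j' a - ζ j a) ^ 2 ≤ e1 * (((j' : ℕ) : ℝ) - ((j : ℕ) : ℝ)) + E0)
    (htot : e1 * m + k * (E0 + τ ^ 2) ≤ k * T ^ 2) :
    |(Matrix.of fun a b : Fin k => ∑ j, ζ j a * g j b + B a b).det| ≤
      ρ * T ^ k * (Γ + k * (κ / τ)) ^ (k + 1) / ((k + 1).factorial : ℝ) := by
  classical
  rw [← det_PQ ζ lam g B τ hτ hlam hg, Pool.Agent.H801R3.SB.cauchyBinet]
  set γ' : Fin m ⊕ Fin k → ℝ := Sum.elim γ (fun _ => κ / τ) with hγ'
  have hγ'0 : ∀ x, 0 ≤ γ' x := by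
    intro x
    rcases x with j | c
    · exact hγ0 j
    · simp only [hγ', Sum.elim_inr]; positivity
  have hrowQ : ∀ x, (fun i => QQ lam g B τ x i) ⬝ᵥ (fun i => QQ lam g B τ x i) ≤ γ' x ^ 2 := by
    intro x
    rcases x with j | c
    · simp only [dotProduct]
      rw [Fin.sum_univ_succ]
      refine le_trans (le_of_eq ?_) (hγ j)
      simp [QQ, sq]
    · simp only [dotProduct]
      rw [Fin.sum_univ_succ]
      simp only [QQ, Sum.elim_inr, Fin.cases_zero, Fin.cases_succ, mul_zero, zero_add, hγ']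
      have : ∑ b : Fin k, B c b / τ * (B c b / τ) = (∑ b, B c b ^ 2) / τ ^ 2 := by
        rw [Finset.sum_div]
        refine Finset.sum_congr rfl fun b _ => ?_
        field_simp
      rw [this, div_pow]
      exact div_le_div_of_nonneg_right (hB c) (by positivity)
  have hterm : ∀ s : Fin (k + 1) → Fin m ⊕ Fin k,
      |((PP ζ τ).submatrix id s).det * ((QQ lam g B τ).submatrix s id).det| ≤
        ρ * T ^ k * ∏ i, γ' (s i) := by
    intro s
    have hQ : |((QQ lam g B τ).submatrix s id).det| ≤ ∏ i, γ' (s i) := by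
      apply abs_det_le _ _ (fun i => hγ'0 _)
      intro i
      exact hrowQ (s i)
    rw [abs_mul]
    by_cases hact : ∀ i j, s i = Sum.inl j → γ j ≠ 0
    · have hP := tuple_bound ζ τ s (fun j => γ j ≠ 0) hact ρ T e1 E0 hρ hT he1 hE0 hr0 hτρ
        hdiff htot
      exact mul_le_mul hP hQ (abs_nonneg _) (by positivity)
    · push Not at hact
      obtain ⟨i, j, hij, hj⟩ := hact
      have hz : ∏ i, γ' (s i) = 0 := by
        apply Finset.prod_eq_zero (Finset.mem_univ i)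
        rw [hij]; simpa [hγ'] using hj
      rw [hz] at hQ
      have : |((QQ lam g B τ).submatrix s id).det| = 0 := le_antisymm hQ (abs_nonneg _)
      rw [this, hz]; simp
  rw [abs_mul, abs_of_nonneg (by positivity : (0:ℝ) ≤ ((k + 1).factorial : ℝ)⁻¹)]
  have hsum : |∑ s : Fin (k + 1) → Fin m ⊕ Fin k,
      ((PP ζ τ).submatrix id s).det * ((QQ lam g B τ).submatrix s id).det| ≤
      ρ * T ^ k * (Γ + k * (κ / τ)) ^ (k + 1) := by
    refine (Finset.abs_sum_le_sum_abs _ _).trans ?_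
    refine (Finset.sum_le_sum fun s _ => hterm s).trans ?_
    rw [← Finset.mul_sum]
    have h1 : ∑ s : Fin (k + 1) → Fin m ⊕ Fin k, ∏ i, γ' (s i) = (∑ x, γ' x) ^ (k + 1) := by
      rw [Fintype.sum_pow]
    rw [h1]
    have h2 : ∑ x, γ' x ≤ Γ + k * (κ / τ) := by
      rw [Fintype.sum_sum_type]
      simp only [hγ', Sum.elim_inl, Sum.elim_inr, Finset.sum_const, Finset.card_univ,
        Fintype.card_fin, nsmul_eq_mul]
      linarith
    have h3 : 0 ≤ ∑ x, γ' x := Finset.sum_nonneg fun x _ => hγ'0 x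
    exact mul_le_mul_of_nonneg_left (pow_le_pow_left₀ h3 h2 _) (by positivity)
  calc ((k + 1).factorial : ℝ)⁻¹ * |∑ s : Fin (k + 1) → Fin m ⊕ Fin k,
        ((PP ζ τ).submatrix id s).det * ((QQ lam g B τ).submatrix s id).det|
      ≤ ((k + 1).factorial : ℝ)⁻¹ * (ρ * T ^ k * (Γ + k * (κ / τ)) ^ (k + 1)) :=
        mul_le_mul_of_nonneg_left hsum (by positivity)
    _ = _ := by rw [div_eq_mul_inv]; ring

end Pool.Agent.W984.LD
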