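import Pool.Agent.W984.LD.An1
import Pool.Agent.W984.LD.Det2

/-! # The averaged map: derivative and determinant bound at points of differentiability -/

namespace Pool.Agent.W984.LD

open Filter Topology

set_option linter.unusedSectionVars false

theorem exp_lip (β r r' : ℝ) (hβ : 0 < β) (hr : 0 ≤ r) :
    Real.exp (-β * r) ≤ Real.exp (-β * r') + β * |r - r'| := by
  have h0 : Real.exp (-β * r) ≤ 1 := by
    rw [Real.exp_le_one_iff]; nlinarith
  have h1 : Real.exp (-β * r) * (1 - β * |r - r'|) ≤ Real.exp (-β * r') := by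
    calc Real.exp (-β * r) * (1 - β * |r - r'|)
        ≤ Real.exp (-β * r) * Real.exp (-(β * |r - r'|)) := by
          apply mul_le_mul_of_nonneg_left _ (Real.exp_pos _).le
          have := Real.add_one_le_exp (-(β * |r - r'|))
          linarith
      _ = Real.exp (-β * r - β * |r - r'|) := by rw [← Real.exp_add]; ring_nf
      _ ≤ Real.exp (-β * r') := by
          rw [Real.exp_le_exp]
          have := neg_abs_le (r - r')
          nlinarith [neg_abs_le (r - r'), le_abs_self (r - r')]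
  have h2 : 0 ≤ β * |r - r'| := by positivity
  nlinarith [mul_le_mul_of_nonneg_right h0 h2]

namespace Cfg

variable {k m : ℕ} (D : Cfg k m)

theorem h_lip (q : D.V) (x y : Eu k) : D.h q x ≤ D.h q y + D.β * ‖x - y‖ := by
  have hβ := D.hβ
  have h0 : 0 ≤ D.β * ‖x - y‖ := by positivity
  unfold h
  apply max_le
  · exact add_nonneg (le_max_left _ _) h0
  · have h1 := exp_lip D.β ‖x - D.pos q‖ ‖y - D.pos q‖ hβ (norm_nonneg _)
    have h2 : |‖x - D.pos q‖ - ‖y - D.pos q‖| ≤ ‖x - y‖ := by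
      have := abs_norm_sub_norm_le (x - D.pos q) (y - D.pos q)
      rwa [sub_sub_sub_cancel_right] at this
    have h3 := mul_le_mul_of_nonneg_left h2 hβ.le
    have h4 := le_max_right 0 (Real.exp (-D.β * ‖y - D.pos q‖) - D.c)
    linarith

theorem W_lip (j : Fin m) (x y : Eu k) : D.W j x ≤ D.W j y + D.β * ‖x - y‖ := by
  have hβ := D.hβ
  have h0 : 0 ≤ D.β * ‖x - y‖ := by positivity
  unfold W
  apply Finset.sup'_le
  intro q _
  have h1 := Finset.le_sup' (fun q : D.V => if D.bin q = j then D.h q y else 0) (Finset.mem_univ q)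
  refine le_trans ?_ (add_le_add_left h1 _)
  by_cases hb : D.bin q = j
  · simp only [if_pos hb]
    exact D.h_lip q x y
  · simp only [if_neg hb]
    linarith

theorem zt_lip (j : Fin m) (a : Fin k) (q : D.V) (x y : Eu k) :
    D.zt j a q x ≤ D.zt j a q y + (8 * D.ε + D.M) * ‖x - y‖ := by
  have hε := D.hε
  have hM := D.hM0
  unfold zt
  split_ifs
  · have h1 : ‖x - D.pos q‖ ≤ ‖y - D.pos q‖ + ‖x - y‖ := by
      have : x - D.pos q = (y - D.pos q) + (x - y) := by abel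
      rw [this]
      exact norm_add_le _ _
    have h2 : max 0 (‖x - D.pos q‖ - 1 / 2) ≤ max 0 (‖y - D.pos q‖ - 1 / 2) + ‖x - y‖ := by
      apply max_le
      · exact add_nonneg (le_max_left _ _) (norm_nonneg _)
      · have := le_max_right 0 (‖y - D.pos q‖ - 1 / 2)
        linarith
    have h3 := mul_le_mul_of_nonneg_left h2 hM
    have h4 := mul_le_mul_of_nonneg_left h1 (by positivity : (0:ℝ) ≤ 8 * D.ε)
    linarith
  · have : 0 ≤ (8 * D.ε + D.M) * ‖x - y‖ := by positivity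
    linarith

theorem Z_lip (j : Fin m) (a : Fin k) (x y : Eu k) :
    D.Z j a x ≤ D.Z j a y + (8 * D.ε + D.M) * ‖x - y‖ := by
  rw [← sub_le_iff_le_add]
  unfold Z
  apply Finset.le_inf'
  intro q _
  have h1 := Finset.inf'_le (fun q : D.V => D.zt j a q x) (Finset.mem_univ q)
  have h2 := D.zt_lip j a q x y
  linarith

theorem W_lipschitz (j : Fin m) : LipschitzWith (Real.toNNReal D.β) (D.W j) := by
  apply LipschitzWith.of_le_add_mul
  intro x y
  rw [Real.coe_toNNReal _ D.hβ.le, dist_eq_norm]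
  exact D.W_lip j x y

theorem Z_lipschitz (j : Fin m) (a : Fin k) :
    LipschitzWith (Real.toNNReal (8 * D.ε + D.M)) (D.Z j a) := by
  apply LipschitzWith.of_le_add_mul
  intro x y
  rw [Real.coe_toNNReal _ (by have := D.hε; have := D.hM0; positivity), dist_eq_norm]
  exact D.Z_lip j a x y

/-- derivative of the normalised weight -/
noncomputable def g (p : Eu k) (j : Fin m) : Eu k →L[ℝ] ℝ :=
  (D.S p)⁻¹ • fderiv ℝ (D.W j) p - (D.W j p * ((D.S p) ^ 2)⁻¹) • ∑ i, fderiv ℝ (D.W i) p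

theorem hasFDerivAt_S (p : Eu k) (hW : ∀ j, DifferentiableAt ℝ (D.W j) p) :
    HasFDerivAt D.S (∑ i, fderiv ℝ (D.W i) p) p := by
  unfold S
  exact HasFDerivAt.fun_sum fun i _ => (hW i).hasFDerivAt

theorem hasFDerivAt_w (p : Eu k) (hW : ∀ j, DifferentiableAt ℝ (D.W j) p) (hS : D.S p ≠ 0)
    (j : Fin m) : HasFDerivAt (D.w j) (D.g p j) p := by
  have h1 := (hasDerivAt_inv hS).comp_hasFDerivAt p (D.hasFDerivAt_S p hW)
  have h2 := (hW j).hasFDerivAt.mul h1
  have h3 : D.w j = fun x => D.W j x * (Inv.inv ∘ D.S) x := by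
    ext x; simp [w, div_eq_mul_inv]
  rw [h3]
  refine h2.congr_fderiv ?_
  unfold g
  simp only [Function.comp_apply]
  module

theorem sum_g (p : Eu k) (hS : D.S p ≠ 0) : ∑ j, D.g p j = 0 := by
  unfold g
  rw [Finset.sum_sub_distrib, ← Finset.smul_sum, ← Finset.sum_smul, ← Finset.sum_mul]
  change (D.S p)⁻¹ • _ - (D.S p * _) • _ = _
  have : D.S p * (D.S p ^ 2)⁻¹ = (D.S p)⁻¹ := by field_simp
  rw [this, sub_self]

theorem g_zero (p : Eu k) (j : Fin m) (h0 : D.W j p = 0) : D.g p j = 0 := by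
  unfold g
  rw [D.fderiv_W_zero j p h0, h0]
  simp

theorem norm_fderiv_W_le (p : Eu k) (hW : ∀ j, DifferentiableAt ℝ (D.W j) p) (j : Fin m) :
    ‖fderiv ℝ (D.W j) p‖ ≤ D.β * (D.W j p + D.c) := by
  rcases (D.W_nonneg j p).eq_or_lt with h | h
  · rw [D.fderiv_W_zero j p h.symm, norm_zero, ← h, zero_add]
    exact mul_nonneg D.hβ.le D.c_pos.le
  · exact D.fderiv_W_le j p h (hW j)

theorem sum_norm_g_le (p : Eu k) (hW : ∀ j, DifferentiableAt ℝ (D.W j) p) (hS : 0 < D.S p)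
    (hmc : m * D.c ≤ D.S p) : ∑ j, ‖D.g p j‖ ≤ 4 * D.β := by
  have hβ := D.hβ
  have h1 : ∀ j, ‖D.g p j‖ ≤ (D.S p)⁻¹ * ‖fderiv ℝ (D.W j) p‖ +
      D.W j p * ((D.S p) ^ 2)⁻¹ * ∑ i, ‖fderiv ℝ (D.W i) p‖ := by
    intro j
    unfold g
    refine (norm_sub_le _ _).trans ?_
    rw [norm_smul, norm_smul, Real.norm_eq_abs, Real.norm_eq_abs,
      abs_of_nonneg (inv_nonneg.2 hS.le),
      abs_of_nonneg (mul_nonneg (D.W_nonneg j p) (by positivity))]
    refine add_le_add le_rfl (mul_le_mul_of_nonneg_left (norm_sum_le _ _) ?_)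
    exact mul_nonneg (D.W_nonneg j p) (by positivity)
  refine (Finset.sum_le_sum fun j _ => h1 j).trans ?_
  rw [Finset.sum_add_distrib, ← Finset.mul_sum, ← Finset.sum_mul, ← Finset.sum_mul]
  change (D.S p)⁻¹ * _ + D.S p * _ * _ ≤ _
  have h2 : D.S p * (D.S p ^ 2)⁻¹ = (D.S p)⁻¹ := by field_simp
  rw [h2]
  have h3 : ∑ i, ‖fderiv ℝ (D.W i) p‖ ≤ D.β * (D.S p + m * D.c) := by
    refine (Finset.sum_le_sum fun i _ => D.norm_fderiv_W_le p hW i).trans ?_
    rw [← Finset.mul_sum, Finset.sum_add_distrib]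
    simp only [Finset.sum_const, Finset.card_univ, Fintype.card_fin, nsmul_eq_mul]
    exact le_rfl
  have h4 : D.β * (D.S p + m * D.c) ≤ D.β * (2 * D.S p) :=
    mul_le_mul_of_nonneg_left (by linarith) hβ.le
  have h5 : (D.S p)⁻¹ * ∑ i, ‖fderiv ℝ (D.W i) p‖ ≤ 2 * D.β := by
    rw [inv_mul_le_iff₀ hS]
    linarith
  linarith

theorem sum_w (p : Eu k) (hS : D.S p ≠ 0) : ∑ j, D.w j p = 1 := by
  unfold w
  rw [← Finset.sum_div]
  exact div_self hS

theorem w_nonneg (p : Eu k) (j : Fin m) : 0 ≤ D.w j p :=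
  div_nonneg (D.W_nonneg j p) (Finset.sum_nonneg fun i _ => D.W_nonneg i p)

/-- derivative of the averaged map, coordinates -/
theorem hasFDerivAt_coord (p : Eu k) (hW : ∀ j, DifferentiableAt ℝ (D.W j) p)
    (hZ : ∀ j a, DifferentiableAt ℝ (D.Z j a) p) (hS : D.S p ≠ 0) (a : Fin k) :
    HasFDerivAt (fun x => D.Phi x a)
      (∑ j, (D.w j p • fderiv ℝ (D.Z j a) p + D.Z j a p • D.g p j)) p := by
  have : (fun x => D.Phi x a) = fun x => ∑ j, D.w j x * D.Z j a x := by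
    ext x; simp [Phi]
  rw [this]
  exact HasFDerivAt.fun_sum fun j _ => (D.hasFDerivAt_w p hW hS j).mul (hZ j a).hasFDerivAt

theorem differentiableAt_Phi (p : Eu k) (hW : ∀ j, DifferentiableAt ℝ (D.W j) p)
    (hZ : ∀ j a, DifferentiableAt ℝ (D.Z j a) p) (hS : D.S p ≠ 0) :
    DifferentiableAt ℝ D.Phi p := by
  rw [differentiableAt_euclidean]
  intro a
  exact (D.hasFDerivAt_coord p hW hZ hS a).differentiableAt

theorem fderiv_Phi_apply (p : Eu k) (hW : ∀ j, DifferentiableAt ℝ (D.W j) p)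
    (hZ : ∀ j a, DifferentiableAt ℝ (D.Z j a) p) (hS : D.S p ≠ 0) (a : Fin k) (v : Eu k) :
    (fderiv ℝ D.Phi p v) a =
      ∑ j, (D.w j p * fderiv ℝ (D.Z j a) p v + D.Z j a p * D.g p j v) := by
  have h1 := (D.differentiableAt_Phi p hW hZ hS).hasFDerivAt
  have h1' : HasFDerivAt (fun x => D.Phi x a)
      ((EuclideanSpace.proj a : Eu k →L[ℝ] ℝ) ∘L fderiv ℝ D.Phi p) p :=
    (EuclideanSpace.proj a : Eu k →L[ℝ] ℝ).hasFDerivAt.comp p h1
  have h2 := h1'.unique (D.hasFDerivAt_coord p hW hZ hS a)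
  have h3 := congrArg (fun L : Eu k →L[ℝ] ℝ => L v) h2
  simpa using h3

end Cfg

/-- squares of the coordinates of a functional -/
theorem sum_sq_apply_le {k : ℕ} (L : Eu k →L[ℝ] ℝ) :
    ∑ b, (L (EuclideanSpace.single b 1)) ^ 2 ≤ ‖L‖ ^ 2 := by
  set v : Eu k := WithLp.toLp 2 (fun b => L (EuclideanSpace.single b 1)) with hv
  have h1 : L v = ‖v‖ ^ 2 := by
    have h2 : v = ∑ b, v b • EuclideanSpace.single b (1 : ℝ) := by
      ext i
      simp [Finset.sum_apply, Pi.single_apply]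
    rw [EuclideanSpace.norm_sq_eq]
    conv_lhs => rw [h2]
    rw [map_sum]
    refine Finset.sum_congr rfl fun b _ => ?_
    rw [map_smul, smul_eq_mul, Real.norm_eq_abs, sq_abs]
    simp [hv, sq]
  have h3 : ‖v‖ ^ 2 ≤ ‖L‖ * ‖v‖ := by
    rw [← h1]
    exact (le_abs_self _).trans (L.le_opNorm v)
  have h4 : ‖v‖ ≤ ‖L‖ := by
    rcases (norm_nonneg v).eq_or_lt with h | h
    · rw [← h]; exact norm_nonneg _
    · have : ‖v‖ * ‖v‖ ≤ ‖L‖ * ‖v‖ := by rw [← sq]; exact h3
      exact le_of_mul_le_mul_right this h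
  have h5 : ∑ b, (L (EuclideanSpace.single b 1)) ^ 2 = ‖v‖ ^ 2 := by
    rw [EuclideanSpace.norm_sq_eq]
    refine Finset.sum_congr rfl fun b _ => ?_
    rw [Real.norm_eq_abs, sq_abs]
  rw [h5]
  exact pow_le_pow_left₀ (norm_nonneg _) h4 2

end Pool.Agent.W984.LD
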