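import Pool.Agent.W984.LD.An2

/-! # The averaged map: pointwise determinant bound -/

namespace Pool.Agent.W984.LD

open Filter Topology

set_option linter.unusedSectionVars false

theorem norm_le_of_coord {k : ℕ} (v : Eu k) (r : ℝ) (hr : 0 ≤ r) (h : ∀ a, |v a| ≤ r) :
    ‖v‖ ≤ r * Real.sqrt k := by
  have h1 : ‖v‖ ^ 2 ≤ (r * Real.sqrt k) ^ 2 := by
    rw [EuclideanSpace.norm_sq_eq, mul_pow, Real.sq_sqrt (by positivity)]
    calc ∑ i, ‖v i‖ ^ 2 ≤ ∑ _i : Fin k, r ^ 2 := by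
          apply Finset.sum_le_sum
          intro i _
          rw [Real.norm_eq_abs]
          exact pow_le_pow_left₀ (abs_nonneg _) (h i) 2
      _ = r ^ 2 * k := by
          simp [Finset.sum_const, mul_comm]
  exact (sq_le_sq₀ (norm_nonneg _) (by positivity)).1 h1

namespace Cfg

variable {k m : ℕ} (D : Cfg k m)

/-- vector of class centre functions -/
noncomputable def ZV (j : Fin m) (p : Eu k) : Eu k := WithLp.toLp 2 (fun a => D.Z j a p)

theorem ZV_near (j : Fin m) (p : Eu k) (hW : 0 < D.W j p) :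
    ∃ q, D.bin q = j ∧ ‖p - D.pos q‖ < 1 / 4 ∧ ‖D.ZV j p - D.z q‖ ≤ 2 * D.ε * Real.sqrt k := by
  obtain ⟨q, hb, hn, -⟩ := D.near_of_W_pos j p hW
  refine ⟨q, hb, hn, ?_⟩
  apply norm_le_of_coord _ _ (by have := D.hε; positivity)
  intro a
  obtain ⟨q', -, -, -, h⟩ := D.Z_near j a p q hb hn
  simpa [ZV] using h

theorem ZV_disp (j : Fin m) (p : Eu k) (hW : 0 < D.W j p) :
    ‖D.ZV j p - p‖ ≤ D.d + 1 / 4 + 2 * D.ε * Real.sqrt k := by
  obtain ⟨q, -, hn, hz⟩ := D.ZV_near j p hW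
  have h1 : D.ZV j p - p = (D.ZV j p - D.z q) + (D.z q - D.pos q) - (p - D.pos q) := by abel
  rw [h1]
  have h2 := D.hzd q
  refine (norm_sub_le _ _).trans ?_
  have h3 := norm_add_le (D.ZV j p - D.z q) (D.z q - D.pos q)
  linarith

theorem ZV_pair (j j' : Fin m) (p : Eu k) (hW : 0 < D.W j p) (hW' : 0 < D.W j' p) :
    ‖D.ZV j' p - D.ZV j p‖ ^ 2 ≤
      2 * D.ε ^ 2 * |((j' : ℕ) : ℝ) - ((j : ℕ) : ℝ)| + (2 * D.ε ^ 2 + 32 * D.ε ^ 2 * k) := by
  have hε := D.hε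
  obtain ⟨q, hb, hn, hz⟩ := D.ZV_near j p hW
  obtain ⟨q', hb', hn', hz'⟩ := D.ZV_near j' p hW'
  have hadj : ‖D.pos q' - D.pos q‖ ≤ 1 := by
    have : D.pos q' - D.pos q = (p - D.pos q) - (p - D.pos q') := by abel
    rw [this]
    refine (norm_sub_le _ _).trans ?_
    linarith
  have h1 := D.hadj q' q hadj
  rw [hb, hb'] at h1
  have h2 : ‖D.ZV j' p - D.ZV j p‖ ≤ ‖D.z q' - D.z q‖ + 4 * D.ε * Real.sqrt k := by
    have : D.ZV j' p - D.ZV j p =
        (D.ZV j' p - D.z q') + (D.z q' - D.z q) - (D.ZV j p - D.z q) := by abel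
    rw [this]
    refine (norm_sub_le _ _).trans ?_
    have h3 := norm_add_le (D.ZV j' p - D.z q') (D.z q' - D.z q)
    linarith
  have h3 : ‖D.ZV j' p - D.ZV j p‖ ^ 2 ≤ (‖D.z q' - D.z q‖ + 4 * D.ε * Real.sqrt k) ^ 2 :=
    pow_le_pow_left₀ (norm_nonneg _) h2 2
  have h4 : (‖D.z q' - D.z q‖ + 4 * D.ε * Real.sqrt k) ^ 2 ≤
      2 * ‖D.z q' - D.z q‖ ^ 2 + 2 * (4 * D.ε * Real.sqrt k) ^ 2 := by
    nlinarith [sq_nonneg (‖D.z q' - D.z q‖ - 4 * D.ε * Real.sqrt k)]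
  have h5 : (4 * D.ε * Real.sqrt k) ^ 2 = 16 * D.ε ^ 2 * k := by
    rw [mul_pow, mul_pow, Real.sq_sqrt (by positivity)]
    ring
  rw [h5] at h4
  nlinarith

theorem W_pos_of (p : Eu k) (j : Fin m) (h : D.w j p + ‖D.g p j‖ ≠ 0) : 0 < D.W j p := by
  rcases (D.W_nonneg j p).eq_or_lt with h0 | h0
  · exfalso
    apply h
    rw [D.g_zero p j h0.symm, norm_zero, add_zero]
    unfold w
    rw [← h0, zero_div]
  · exact h0

theorem norm_B_le (p : Eu k) (hZ : ∀ j a, DifferentiableAt ℝ (D.Z j a) p) (hS : 0 < D.S p)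
    (a : Fin k) : ‖∑ j, D.w j p • fderiv ℝ (D.Z j a) p‖ ≤ 8 * D.ε := by
  refine (norm_sum_le _ _).trans ?_
  have h1 : ∀ j, ‖D.w j p • fderiv ℝ (D.Z j a) p‖ ≤ D.w j p * (8 * D.ε) := by
    intro j
    rw [norm_smul, Real.norm_eq_abs, abs_of_nonneg (D.w_nonneg p j)]
    rcases (D.W_nonneg j p).eq_or_lt with h0 | h0
    · have : D.w j p = 0 := by unfold w; rw [← h0, zero_div]
      rw [this]; simp
    · exact mul_le_mul_of_nonneg_left (D.fderiv_Z_le j a p h0 (hZ j a)) (D.w_nonneg p j)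
  refine (Finset.sum_le_sum fun j _ => h1 j).trans ?_
  rw [← Finset.sum_mul, D.sum_w p hS.ne', one_mul]

theorem det_Phi_le (p : Eu k) (hW : ∀ j, DifferentiableAt ℝ (D.W j) p)
    (hZ : ∀ j a, DifferentiableAt ℝ (D.Z j a) p) (hS : 0 < D.S p) (hmc : m * D.c ≤ D.S p)
    (τ ρ T : ℝ) (hτ : 0 < τ) (hρ : 0 ≤ ρ) (hT : 0 ≤ T)
    (hr : 1 + (D.d + 1 / 4 + 2 * D.ε * Real.sqrt k) ^ 2 ≤ ρ ^ 2) (hτρ : τ ^ 2 ≤ ρ ^ 2)
    (htot : 2 * D.ε ^ 2 * m + k * ((2 * D.ε ^ 2 + 32 * D.ε ^ 2 * k) + τ ^ 2) ≤ k * T ^ 2) :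
    |(fderiv ℝ D.Phi p).det| ≤
      ρ * T ^ k * ((1 + 4 * D.β) + k * (8 * D.ε / τ)) ^ (k + 1) / ((k + 1).factorial : ℝ) := by
  have hε := D.hε
  have hS0 : D.S p ≠ 0 := hS.ne'
  have hdet : (fderiv ℝ D.Phi p).det =
      (Matrix.of fun a b : Fin k => ∑ j, (D.Z j a p - p a) * D.g p j (EuclideanSpace.single b 1) +
        (∑ j, D.w j p • fderiv ℝ (D.Z j a) p) (EuclideanSpace.single b 1)).det := by
    rw [ContinuousLinearMap.det,
      ← LinearMap.det_toMatrix (EuclideanSpace.basisFun (Fin k) ℝ).toBasis]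
    congr 1
    ext a b
    rw [LinearMap.toMatrix_apply]
    simp only [OrthonormalBasis.coe_toBasis, EuclideanSpace.basisFun_apply,
      OrthonormalBasis.coe_toBasis_repr_apply, EuclideanSpace.basisFun_repr, Matrix.of_apply]
    have h1 := D.fderiv_Phi_apply p hW hZ hS0 a (EuclideanSpace.single b 1)
    have h2 : ∑ j, D.g p j (EuclideanSpace.single b 1) = 0 := by
      have := congrArg (fun L : Eu k →L[ℝ] ℝ => L (EuclideanSpace.single b 1)) (D.sum_g p hS0)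
      simpa using this
    refine h1.trans ?_
    have h3 : ∑ j, (D.Z j a p - p a) * D.g p j (EuclideanSpace.single b 1) =
        ∑ j, D.Z j a p * D.g p j (EuclideanSpace.single b 1) := by
      simp only [sub_mul]
      rw [Finset.sum_sub_distrib, ← Finset.mul_sum, h2, mul_zero, sub_zero]
    rw [h3, Finset.sum_add_distrib]
    simp only [sum_apply, smul_apply, smul_eq_mul]
    ring
  rw [hdet]
  apply det_bound (fun j a => D.Z j a p - p a) (fun j => D.w j p)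
    (fun j b => D.g p j (EuclideanSpace.single b 1))
    (fun a b => (∑ j, D.w j p • fderiv ℝ (D.Z j a) p) (EuclideanSpace.single b 1))
    τ ρ T (2 * D.ε ^ 2) (2 * D.ε ^ 2 + 32 * D.ε ^ 2 * k) (8 * D.ε) (1 + 4 * D.β)
    (fun j => D.w j p + ‖D.g p j‖) hτ hρ hT (by positivity) (by positivity) (by positivity)
    (D.sum_w p hS0)
  · intro b
    have := congrArg (fun L : Eu k →L[ℝ] ℝ => L (EuclideanSpace.single b 1)) (D.sum_g p hS0)
    simpa using this
  · intro j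
    exact add_nonneg (D.w_nonneg p j) (norm_nonneg _)
  · intro j
    have h1 := sum_sq_apply_le (D.g p j)
    have h2 := D.w_nonneg p j
    have h3 := norm_nonneg (D.g p j)
    nlinarith
  · rw [Finset.sum_add_distrib, D.sum_w p hS0]
    have := D.sum_norm_g_le p hW hS hmc
    linarith
  · intro a
    refine (sum_sq_apply_le _).trans ?_
    exact pow_le_pow_left₀ (norm_nonneg _) (D.norm_B_le p hZ hS a) 2
  · intro j hj
    have hWj := D.W_pos_of p j hj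
    have h1 := D.ZV_disp j p hWj
    have h2 : ∑ a, (D.Z j a p - p a) ^ 2 = ‖D.ZV j p - p‖ ^ 2 := by
      rw [EuclideanSpace.norm_sq_eq]
      refine Finset.sum_congr rfl fun a _ => ?_
      rw [Real.norm_eq_abs, sq_abs]
      simp [ZV]
    rw [h2]
    have h3 := pow_le_pow_left₀ (norm_nonneg _) h1 2
    linarith
  · exact hτρ
  · intro j j' hjj hj hj'
    have h1 := D.ZV_pair j j' p (D.W_pos_of p j hj) (D.W_pos_of p j' hj')
    have h2 : ∑ a, (D.Z j' a p - p a - (D.Z j a p - p a)) ^ 2 = ‖D.ZV j' p - D.ZV j p‖ ^ 2 := by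
      rw [EuclideanSpace.norm_sq_eq]
      refine Finset.sum_congr rfl fun a _ => ?_
      rw [Real.norm_eq_abs, sq_abs]
      simp [ZV]
    rw [h2]
    have h3 : |((j' : ℕ) : ℝ) - ((j : ℕ) : ℝ)| = ((j' : ℕ) : ℝ) - ((j : ℕ) : ℝ) := by
      apply abs_of_nonneg
      have : (j : ℕ) < (j' : ℕ) := hjj
      have : ((j : ℕ) : ℝ) < ((j' : ℕ) : ℝ) := by exact_mod_cast this
      linarith
    rw [h3] at h1
    exact h1
  · exact htot

end Cfg

end Pool.Agent.W984.LD
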