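import Pool.Agent.W984.LD.An3
import Pool.Agent.Helper133.Brouwer

/-! # The averaged map: Lipschitz bound, covering by Brouwer, volume -/

namespace Pool.Agent.W984.LD

open Filter Topology MeasureTheory

set_option linter.unusedSectionVars false

section BLsec

variable {E : Type*} [NormedAddCommGroup E]

/-- bounded and Lipschitz on a set -/
def BL (K : Set E) (f : E → ℝ) : Prop :=
  ∃ C : ℝ, 0 ≤ C ∧ (∀ x ∈ K, |f x| ≤ C) ∧ ∀ x ∈ K, ∀ y ∈ K, |f x - f y| ≤ C * ‖x - y‖

theorem BL.add {K : Set E} {f g : E → ℝ} (hf : BL K f) (hg : BL K g) :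
    BL K (fun x => f x + g x) := by
  obtain ⟨C, hC0, hC1, hC2⟩ := hf
  obtain ⟨B, hB0, hB1, hB2⟩ := hg
  refine ⟨C + B, by positivity, fun x hx => ?_, fun x hx y hy => ?_⟩
  · exact (abs_add_le _ _).trans (add_le_add (hC1 x hx) (hB1 x hx))
  · have h1 : f x + g x - (f y + g y) = (f x - f y) + (g x - g y) := by ring
    rw [h1, add_mul]
    exact (abs_add_le _ _).trans (add_le_add (hC2 x hx y hy) (hB2 x hx y hy))

theorem BL.mul {K : Set E} {f g : E → ℝ} (hf : BL K f) (hg : BL K g) :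
    BL K (fun x => f x * g x) := by
  obtain ⟨C, hC0, hC1, hC2⟩ := hf
  obtain ⟨B, hB0, hB1, hB2⟩ := hg
  refine ⟨2 * (C * B), by positivity, fun x hx => ?_, fun x hx y hy => ?_⟩
  · rw [abs_mul]
    have := mul_le_mul (hC1 x hx) (hB1 x hx) (abs_nonneg _) hC0
    have h2 : 0 ≤ C * B := by positivity
    linarith
  · have h1 : f x * g x - f y * g y = (f x - f y) * g x + f y * (g x - g y) := by ring
    rw [h1]
    refine (abs_add_le _ _).trans ?_
    rw [abs_mul, abs_mul]
    have h2 := mul_le_mul (hC2 x hx y hy) (hB1 x hx) (abs_nonneg _) (by positivity)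
    have h3 := mul_le_mul (hC1 y hy) (hB2 x hx y hy) (abs_nonneg _) hC0
    linarith

theorem BL.sum {ι : Type*} (s : Finset ι) {K : Set E} {f : ι → E → ℝ} (hf : ∀ i, BL K (f i)) :
    BL K (fun x => ∑ i ∈ s, f i x) := by
  classical
  induction s using Finset.induction_on with
  | empty =>
    refine ⟨0, le_rfl, fun x _ => by simp, fun x _ y _ => by simp⟩
  | insert a s ha ih =>
    simp only [Finset.sum_insert ha]
    exact (hf a).add ih

theorem BL.inv {K : Set E} {f : E → ℝ} (hf : BL K f) (h : ∀ x ∈ K, 1 / 2 ≤ f x) :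
    BL K (fun x => (f x)⁻¹) := by
  obtain ⟨C, hC0, hC1, hC2⟩ := hf
  have hinv : ∀ x ∈ K, 0 < f x ∧ (f x)⁻¹ ≤ 2 := by
    intro x hx
    have h1 := h x hx
    have h2 : 0 < f x := by linarith
    refine ⟨h2, ?_⟩
    rw [inv_le_comm₀ h2 (by norm_num)]
    linarith
  refine ⟨4 * C + 2, by positivity, fun x hx => ?_, fun x hx y hy => ?_⟩
  · obtain ⟨h1, h2⟩ := hinv x hx
    rw [abs_of_pos (inv_pos.2 h1)]
    linarith
  · obtain ⟨h1, h2⟩ := hinv x hx
    obtain ⟨h3, h4⟩ := hinv y hy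
    have h5 : (f x)⁻¹ - (f y)⁻¹ = (f y - f x) * ((f x)⁻¹ * (f y)⁻¹) := by
      field_simp
    rw [h5, abs_mul, abs_sub_comm]
    have h6 : |(f x)⁻¹ * (f y)⁻¹| ≤ 4 := by
      rw [abs_of_pos (by positivity)]
      have := mul_le_mul h2 h4 (inv_pos.2 h3).le (by norm_num)
      linarith
    have h7 := mul_le_mul (hC2 x hx y hy) h6 (abs_nonneg _) (by positivity)
    have h8 := norm_nonneg (x - y)
    nlinarith

theorem BL.of_lip (R : ℝ) (f : E → ℝ) (L : ℝ) (hL : 0 ≤ L)
    (h : ∀ x y, f x ≤ f y + L * ‖x - y‖) : BL (Metric.closedBall (0 : E) R) f := by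
  have h2 : ∀ x y, |f x - f y| ≤ L * ‖x - y‖ := by
    intro x y
    rw [abs_le]
    have h3 := h x y
    have h4 := h y x
    rw [norm_sub_rev] at h4
    constructor <;> linarith
  refine ⟨|f 0| + L * |R| + L, by positivity, fun x hx => ?_, fun x _ y _ => ?_⟩
  · have hx' : ‖x‖ ≤ R := by simpa using hx
    have h3 := h2 x 0
    rw [sub_zero] at h3
    have h4 : |f x| ≤ |f 0| + |f x - f 0| := by
      have := abs_add_le (f 0) (f x - f 0)
      simpa using this
    have h5 : L * ‖x‖ ≤ L * |R| := mul_le_mul_of_nonneg_left (hx'.trans (le_abs_self R)) hL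
    linarith
  · refine (h2 x y).trans (mul_le_mul_of_nonneg_right ?_ (norm_nonneg _))
    have := abs_nonneg (f 0)
    have := mul_nonneg hL (abs_nonneg R)
    linarith

end BLsec

namespace Cfg

variable {k m : ℕ} (D : Cfg k m)

theorem S_lower (p : Eu k) (r : ℝ) (q : D.V) (hq : ‖p - D.pos q‖ ≤ r)
    (hr : 1 / 2 + D.c ≤ Real.exp (-D.β * r)) : 1 / 2 ≤ D.S p := by
  have hβ := D.hβ
  have h1 : Real.exp (-D.β * r) ≤ Real.exp (-D.β * ‖p - D.pos q‖) := by
    rw [Real.exp_le_exp]; nlinarith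
  have h2 : Real.exp (-D.β * ‖p - D.pos q‖) - D.c ≤ D.h q p := le_max_right _ _
  have h3 := D.h_le_W q p
  have h4 : D.W (D.bin q) p ≤ D.S p :=
    Finset.single_le_sum (f := fun j => D.W j p) (fun j _ => D.W_nonneg j p) (Finset.mem_univ _)
  linarith

theorem BL_Phi (R : ℝ) (hS : ∀ p ∈ Metric.closedBall (0 : Eu k) R, 1 / 2 ≤ D.S p) (a : Fin k) :
    BL (Metric.closedBall (0 : Eu k) R) (fun p => D.Phi p a) := by
  have hε := D.hε
  have hM := D.hM0
  have hW : ∀ j, BL (Metric.closedBall (0 : Eu k) R) (D.W j) := fun j =>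
    BL.of_lip R (D.W j) D.β D.hβ.le (D.W_lip j)
  have hZ : ∀ j, BL (Metric.closedBall (0 : Eu k) R) (D.Z j a) := fun j =>
    BL.of_lip R (D.Z j a) (8 * D.ε + D.M) (by positivity) (D.Z_lip j a)
  have hSs : BL (Metric.closedBall (0 : Eu k) R) D.S := BL.sum Finset.univ hW
  have hSi := hSs.inv hS
  have h1 : BL (Metric.closedBall (0 : Eu k) R)
      (fun p => ∑ j, D.W j p * (D.S p)⁻¹ * D.Z j a p) :=
    BL.sum Finset.univ fun j => ((hW j).mul hSi).mul (hZ j)
  have h2 : (fun p => D.Phi p a) = (fun p => ∑ j, D.W j p * (D.S p)⁻¹ * D.Z j a p) := by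
    ext p; simp [Phi, w, div_eq_mul_inv]
  rw [h2]
  exact h1

theorem lipschitzOn_Phi (R : ℝ) (hS : ∀ p ∈ Metric.closedBall (0 : Eu k) R, 1 / 2 ≤ D.S p) :
    ∃ C : NNReal, LipschitzOnWith C D.Phi (Metric.closedBall (0 : Eu k) R) := by
  choose C hC0 hC1 hC2 using fun a => D.BL_Phi R hS a
  refine ⟨Real.toNNReal ((∑ a, C a) * Real.sqrt k), ?_⟩
  apply LipschitzOnWith.of_dist_le_mul
  intro x hx y hy
  have hnn : 0 ≤ (∑ a, C a) * Real.sqrt k :=
    mul_nonneg (Finset.sum_nonneg fun a _ => hC0 a) (Real.sqrt_nonneg _)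
  rw [Real.coe_toNNReal _ hnn, dist_eq_norm, dist_eq_norm]
  have h1 := norm_le_of_coord (D.Phi x - D.Phi y) ((∑ a, C a) * ‖x - y‖)
    (mul_nonneg (Finset.sum_nonneg fun a _ => hC0 a) (norm_nonneg _)) (by
      intro a
      have h2 := hC2 a x hx y hy
      have h3 : C a ≤ ∑ a, C a := Finset.single_le_sum (fun a _ => hC0 a) (Finset.mem_univ a)
      have h4 := mul_le_mul_of_nonneg_right h3 (norm_nonneg (x - y))
      exact (le_of_eq (by simp)).trans (h2.trans h4))
  calc ‖D.Phi x - D.Phi y‖ ≤ (∑ a, C a) * ‖x - y‖ * Real.sqrt k := h1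
    _ = _ := by ring

theorem Phi_disp (p : Eu k) (hS : 0 < D.S p) :
    ‖D.Phi p - p‖ ≤ D.d + 1 / 4 + 2 * D.ε * Real.sqrt k := by
  have h1 : D.Phi p - p = ∑ j, D.w j p • (D.ZV j p - p) := by
    have h2 : ∑ j, D.w j p • (D.ZV j p - p) = (∑ j, D.w j p • D.ZV j p) - p := by
      simp only [smul_sub]
      rw [Finset.sum_sub_distrib, ← Finset.sum_smul, D.sum_w p hS.ne', one_smul]
    rw [h2]
    congr 1
    ext a
    simp [Phi, ZV, Finset.sum_apply]
  rw [h1]
  refine (norm_sum_le _ _).trans ?_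
  have h2 : ∀ j, ‖D.w j p • (D.ZV j p - p)‖ ≤
      D.w j p * (D.d + 1 / 4 + 2 * D.ε * Real.sqrt k) := by
    intro j
    rw [norm_smul, Real.norm_eq_abs, abs_of_nonneg (D.w_nonneg p j)]
    rcases (D.W_nonneg j p).eq_or_lt with h0 | h0
    · have : D.w j p = 0 := by unfold w; rw [← h0, zero_div]
      rw [this]; simp
    · exact mul_le_mul_of_nonneg_left (D.ZV_disp j p h0) (D.w_nonneg p j)
  refine (Finset.sum_le_sum fun j _ => h2 j).trans ?_
  rw [← Finset.sum_mul, D.sum_w p hS.ne', one_mul]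

end Cfg

/-- covering by Brouwer -/
theorem cover_of_disp {k : ℕ} (F : Eu k → Eu k) (R r : ℝ) (hR : 0 < R)
    (hF : ContinuousOn F (Metric.closedBall 0 R))
    (hdisp : ∀ p ∈ Metric.closedBall (0 : Eu k) R, ‖F p - p‖ ≤ r) :
    Metric.closedBall (0 : Eu k) (R - r) ⊆ F '' (Metric.closedBall (0 : Eu k) R) := by
  intro y hy
  have hy' : ‖y‖ ≤ R - r := by simpa using hy
  set proj : Eu k → Eu k := fun x => (R / max R ‖x‖) • x with hproj
  have hmaxpos : ∀ x : Eu k, 0 < max R ‖x‖ := fun x => lt_of_lt_of_le hR (le_max_left _ _)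
  have hprojc : Continuous proj := by
    have h1 : Continuous fun x : Eu k => R / max R ‖x‖ :=
      Continuous.div continuous_const (continuous_const.max continuous_norm)
        (fun x => (hmaxpos x).ne')
    exact h1.smul continuous_id
  have hprojm : ∀ x, proj x ∈ Metric.closedBall (0 : Eu k) R := by
    intro x
    have hp := hmaxpos x
    rw [mem_closedBall_zero_iff, hproj]
    simp only
    rw [norm_smul, Real.norm_eq_abs, abs_of_pos (by positivity), div_mul_eq_mul_div,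
      div_le_iff₀ hp]
    exact mul_le_mul_of_nonneg_left (le_max_right _ _) hR.le
  have hprojid : ∀ x : Eu k, ‖x‖ ≤ R → proj x = x := by
    intro x hx
    rw [hproj]
    simp only
    rw [max_eq_left hx, div_self hR.ne', one_smul]
  have hFp : Continuous fun x => F (proj x) := hF.comp_continuous hprojc hprojm
  obtain ⟨x, hx⟩ := Pool.Agent.Helper133.Brouwer.brouwer_euclidean k
    (fun x => y + proj x - F (proj x)) ((continuous_const.add hprojc).sub hFp) (‖y‖ + r) (by
      intro x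
      have h1 : y + proj x - F (proj x) = y - (F (proj x) - proj x) := by abel
      rw [h1]
      refine (norm_sub_le _ _).trans ?_
      have := hdisp _ (hprojm x)
      linarith)
  have h1 : x = y - (F (proj x) - proj x) := by
    have h2 : y + proj x - F (proj x) = x := hx
    calc x = y + proj x - F (proj x) := h2.symm
      _ = _ := by abel
  have hxn : ‖x‖ ≤ R := by
    rw [h1]
    refine (norm_sub_le _ _).trans ?_
    have := hdisp _ (hprojm x)
    linarith
  refine ⟨x, by simpa using hxn, ?_⟩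
  rw [hprojid x hxn] at h1
  have h3 : x - (y - (F x - x)) = 0 := sub_eq_zero.2 h1
  have h4 : F x - y = 0 := by
    have : x - (y - (F x - x)) = F x - y := by abel
    rw [← this]; exact h3
  exact sub_eq_zero.1 h4

end Pool.Agent.W984.LD
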