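import Pool.Agent.W984.LD.An4

/-! # The volume argument -/

namespace Pool.Agent.W984.LD

open Filter Topology MeasureTheory
open scoped ENNReal NNReal

set_option linter.unusedSectionVars false

theorem volume_bound {k : ℕ} (F : Eu k → Eu k) (R r δ : ℝ) (hR : 0 < R) (hr : r ≤ R)
    (hδ : 0 ≤ δ) (C : ℝ≥0)
    (hlip : LipschitzOnWith C F (Metric.closedBall 0 R)) (G : Set (Eu k)) (hGm : MeasurableSet G)
    (hGK : G ⊆ Metric.closedBall 0 R)
    (hnull : ∀ μ : Measure (Eu k), μ.IsAddHaarMeasure → μ (Metric.closedBall 0 R \ G) = 0)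
    (hdiff : ∀ x ∈ G, DifferentiableAt ℝ F x)
    (hdet : ∀ x ∈ G, |(fderiv ℝ F x).det| ≤ δ)
    (hcov : Metric.closedBall (0 : Eu k) (R - r) ⊆ F '' (Metric.closedBall (0 : Eu k) R)) :
    (R - r) ^ k ≤ δ * R ^ k := by
  set μ : Measure (Eu k) := Measure.hausdorffMeasure (Module.finrank ℝ (Eu k) : ℝ) with hμ
  have hfr : Module.finrank ℝ (Eu k) = k := by simp
  have hball : ∀ s : ℝ, 0 ≤ s → μ (Metric.closedBall (0 : Eu k) s) =
      ENNReal.ofReal (s ^ k) * μ (Metric.ball (0 : Eu k) 1) := by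
    intro s hs
    have := Measure.addHaar_closedBall μ (0 : Eu k) hs
    rw [hfr] at this
    exact this
  have h1 : μ (Metric.closedBall (0 : Eu k) (R - r)) ≤ μ (F '' G) +
      μ (F '' (Metric.closedBall (0 : Eu k) R \ G)) := by
    refine (measure_mono (hcov.trans ?_)).trans (measure_union_le _ _)
    rw [← Set.image_union]
    apply Set.image_mono
    intro x hx
    by_cases hxG : x ∈ G
    · exact Or.inl hxG
    · exact Or.inr ⟨hx, hxG⟩
  have h2 : μ (F '' (Metric.closedBall (0 : Eu k) R \ G)) = 0 := by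
    have h3 := (hlip.mono (Set.sdiff_subset (s := Metric.closedBall (0 : Eu k) R)
      (t := G))).hausdorffMeasure_image_le
      (d := (Module.finrank ℝ (Eu k) : ℝ)) (by positivity)
    rw [← hμ, hnull μ inferInstance, mul_zero] at h3
    exact le_antisymm h3 (by positivity)
  have h3 : μ (F '' G) ≤ ENNReal.ofReal δ * μ (Metric.closedBall (0 : Eu k) R) := by
    refine (addHaar_image_le_lintegral_abs_det_fderiv μ hGm
      (fun x hx => (hdiff x hx).hasFDerivAt.hasFDerivWithinAt)).trans ?_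
    calc ∫⁻ x in G, ENNReal.ofReal |(fderiv ℝ F x).det| ∂μ
        ≤ ∫⁻ _x in G, ENNReal.ofReal δ ∂μ := by
          apply setLIntegral_mono' hGm
          intro x hx
          exact ENNReal.ofReal_le_ofReal (hdet x hx)
      _ = ENNReal.ofReal δ * μ G := by rw [setLIntegral_const]
      _ ≤ _ := by gcongr
  rw [h2, add_zero] at h1
  have h4 := h1.trans h3
  rw [hball (R - r) (by linarith), hball R hR.le, ← mul_assoc,
    ← ENNReal.ofReal_mul hδ] at h4
  have hb0 : μ (Metric.ball (0 : Eu k) 1) ≠ 0 := (Metric.measure_ball_pos μ _ one_pos).ne'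
  have hbt : μ (Metric.ball (0 : Eu k) 1) ≠ ⊤ := measure_ball_lt_top.ne
  rw [ENNReal.mul_le_mul_iff_left hb0 hbt] at h4
  exact (ENNReal.ofReal_le_ofReal_iff (by positivity)).1 h4

namespace Cfg

variable {k m : ℕ} (D : Cfg k m)

/-- points of differentiability -/
def good (R : ℝ) : Set (Eu k) :=
  Metric.closedBall 0 R ∩ ((⋂ j, {p | DifferentiableAt ℝ (D.W j) p}) ∩
    ⋂ j, ⋂ a, {p | DifferentiableAt ℝ (D.Z j a) p})

theorem good_measurable (R : ℝ) : MeasurableSet (D.good R) := by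
  apply measurableSet_closedBall.inter
  apply MeasurableSet.inter
  · exact MeasurableSet.iInter fun j => measurableSet_of_differentiableAt ℝ _
  · exact MeasurableSet.iInter fun j => MeasurableSet.iInter fun a =>
      measurableSet_of_differentiableAt ℝ _

theorem good_null (R : ℝ) (μ : Measure (Eu k)) (hμ : μ.IsAddHaarMeasure) :
    μ (Metric.closedBall 0 R \ D.good R) = 0 := by
  have h1 : ∀ᵐ p ∂μ, (∀ j, DifferentiableAt ℝ (D.W j) p) ∧
      ∀ j a, DifferentiableAt ℝ (D.Z j a) p := by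
    rw [eventually_and]
    constructor
    · rw [ae_all_iff]
      intro j
      exact (D.W_lipschitz j).ae_differentiableAt
    · rw [ae_all_iff]
      intro j
      rw [ae_all_iff]
      intro a
      exact (D.Z_lipschitz j a).ae_differentiableAt
  refine measure_mono_null ?_ (ae_iff.1 h1)
  intro p hp hcon
  apply hp.2
  refine ⟨hp.1, ?_, ?_⟩
  · simpa using hcon.1
  · simpa using hcon.2

/-- **Main inequality for a configuration.** -/
theorem main_ineq (R rm : ℝ) (hR : 0 < R)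
    (hcov : ∀ p : Eu k, ‖p‖ ≤ R → ∃ q, ‖p - D.pos q‖ ≤ rm)
    (hrm : 1 / 2 + D.c ≤ Real.exp (-D.β * rm)) (hmc : m * D.c ≤ 1 / 2)
    (r : ℝ) (hr : D.d + 1 / 4 + 2 * D.ε * Real.sqrt k ≤ r) (hrR : r ≤ R)
    (τ ρ T : ℝ) (hτ : 0 < τ) (hρ : 0 ≤ ρ) (hT : 0 ≤ T)
    (hρr : 1 + (D.d + 1 / 4 + 2 * D.ε * Real.sqrt k) ^ 2 ≤ ρ ^ 2) (hτρ : τ ^ 2 ≤ ρ ^ 2)
    (htot : 2 * D.ε ^ 2 * m + k * ((2 * D.ε ^ 2 + 32 * D.ε ^ 2 * k) + τ ^ 2) ≤ k * T ^ 2) :
    (R - r) ^ k ≤
      (ρ * T ^ k * ((1 + 4 * D.β) + k * (8 * D.ε / τ)) ^ (k + 1) / ((k + 1).factorial : ℝ)) *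
        R ^ k := by
  have hβ := D.hβ
  have hε := D.hε
  have hS : ∀ p ∈ Metric.closedBall (0 : Eu k) R, 1 / 2 ≤ D.S p := by
    intro p hp
    obtain ⟨q, hq⟩ := hcov p (by simpa using hp)
    exact D.S_lower p rm q hq hrm
  obtain ⟨C, hlip⟩ := D.lipschitzOn_Phi R hS
  have hdisp : ∀ p ∈ Metric.closedBall (0 : Eu k) R, ‖D.Phi p - p‖ ≤ r := by
    intro p hp
    have := hS p hp
    exact (D.Phi_disp p (by linarith)).trans hr
  have hcover := cover_of_disp D.Phi R r hR hlip.continuousOn hdisp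
  apply volume_bound D.Phi R r _ hR hrR (by positivity) C hlip (D.good R) (D.good_measurable R)
    (fun p hp => hp.1) (fun μ hμ => D.good_null R μ hμ) _ _ hcover
  · intro p hp
    have h1 : ∀ j, DifferentiableAt ℝ (D.W j) p := by simpa using hp.2.1
    have h2 : ∀ j a, DifferentiableAt ℝ (D.Z j a) p := by simpa using hp.2.2
    have h3 := hS p hp.1
    exact D.differentiableAt_Phi p h1 h2 (by linarith)
  · intro p hp
    have h1 : ∀ j, DifferentiableAt ℝ (D.W j) p := by simpa using hp.2.1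
    have h2 : ∀ j a, DifferentiableAt ℝ (D.Z j a) p := by simpa using hp.2.2
    have h3 := hS p hp.1
    exact D.det_Phi_le p h1 h2 (by linarith) (by linarith) τ ρ T hτ hρ hT hρr hτρ htot

end Cfg

end Pool.Agent.W984.LD
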