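import Mathlib

/-! # Chebyshev centres of finite sets, and the centres attached to an ordering -/

namespace Pool.Agent.W984.LD

open Filter

set_option linter.unusedSectionVars false

section Cheb

variable {E : Type*} [NormedAddCommGroup E] [InnerProductSpace ℝ E]

/-- squared radius function -/
noncomputable def rad (T : Finset E) (hT : T.Nonempty) (y : E) : ℝ :=
  T.sup' hT (fun x => ‖x - y‖ ^ 2)

theorem le_rad (T : Finset E) (hT : T.Nonempty) (y : E) {x : E} (hx : x ∈ T) :
    ‖x - y‖ ^ 2 ≤ rad T hT y :=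
  Finset.le_sup' (fun x => ‖x - y‖ ^ 2) hx

theorem rad_le (T : Finset E) (hT : T.Nonempty) (y : E) (c : ℝ) (h : ∀ x ∈ T, ‖x - y‖ ^ 2 ≤ c) :
    rad T hT y ≤ c :=
  Finset.sup'_le _ _ h

theorem rad_continuous (T : Finset E) (hT : T.Nonempty) : Continuous (rad T hT) := by
  unfold rad
  exact Continuous.finset_sup'_apply hT (fun x _ => by fun_prop)

theorem rad_exists_min [FiniteDimensional ℝ E] (T : Finset E) (hT : T.Nonempty) :
    ∃ z, ∀ y, rad T hT z ≤ rad T hT y := by
  obtain ⟨x0, hx0⟩ := hT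
  have hT : T.Nonempty := ⟨x0, hx0⟩
  apply (rad_continuous T hT).exists_forall_le
  have h1 : Tendsto (fun y : E => ‖x0 - y‖) (cocompact E) atTop := by
    have h2 : Tendsto (fun y : E => ‖y‖ - ‖x0‖) (cocompact E) atTop :=
      tendsto_atTop_add_const_right _ _ (tendsto_norm_cocompact_atTop (E := E))
    refine tendsto_atTop_mono (fun y => ?_) h2
    have := norm_sub_norm_le y x0
    rw [norm_sub_rev] at this
    exact this
  have h3 : Tendsto (fun y : E => ‖x0 - y‖ ^ 2) (cocompact E) atTop :=
    (tendsto_pow_atTop (by norm_num)).comp h1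
  exact tendsto_atTop_mono (fun y => le_rad T hT y hx0) h3

theorem comb_norm (x y z : E) (t : ℝ) :
    ‖x - ((1 - t) • z + t • y)‖ ^ 2 =
      (1 - t) * ‖x - z‖ ^ 2 + t * ‖x - y‖ ^ 2 - t * (1 - t) * ‖y - z‖ ^ 2 := by
  have h1 : x - ((1 - t) • z + t • y) = (1 - t) • (x - z) + t • (x - y) := by
    module
  have h2 : y - z = (x - z) - (x - y) := by abel
  rw [h1, h2, norm_add_sq_real, norm_sub_sq_real (x - z), norm_smul, norm_smul, mul_pow, mul_pow,
    real_inner_smul_left, real_inner_smul_right, Real.norm_eq_abs, Real.norm_eq_abs, sq_abs, sq_abs]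
  ring

theorem rad_strong (T : Finset E) (hT : T.Nonempty) (z : E)
    (hz : ∀ y, rad T hT z ≤ rad T hT y) (y : E) :
    rad T hT z + ‖y - z‖ ^ 2 ≤ rad T hT y := by
  have hkey : ∀ t : ℝ, 0 < t → t < 1 →
      rad T hT z + ‖y - z‖ ^ 2 ≤ rad T hT y + t * ‖y - z‖ ^ 2 := by
    intro t ht0 ht1
    have h1 : rad T hT ((1 - t) • z + t • y) ≤
        (1 - t) * rad T hT z + t * rad T hT y - t * (1 - t) * ‖y - z‖ ^ 2 := by
      apply rad_le
      intro x hx
      rw [comb_norm]
      have h2 := le_rad T hT z hx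
      have h3 := le_rad T hT y hx
      have h4 := mul_le_mul_of_nonneg_left h2 (by linarith : (0:ℝ) ≤ 1 - t)
      have h5 := mul_le_mul_of_nonneg_left h3 ht0.le
      linarith
    have h2 := hz ((1 - t) • z + t • y)
    have h3 : t * (rad T hT z + ‖y - z‖ ^ 2) ≤ t * (rad T hT y + t * ‖y - z‖ ^ 2) := by
      nlinarith
    exact le_of_mul_le_mul_left h3 ht0
  apply le_of_forall_pos_le_add
  intro ε hε
  set N : ℝ := ‖y - z‖ ^ 2 with hN
  have hN0 : 0 ≤ N := by positivity
  have ht0 : 0 < min (1 / 2) (ε / (N + 1)) := lt_min (by norm_num) (by positivity)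
  have ht1 : min (1 / 2) (ε / (N + 1)) < 1 := lt_of_le_of_lt (min_le_left _ _) (by norm_num)
  refine (hkey _ ht0 ht1).trans ?_
  have h1 : min (1 / 2) (ε / (N + 1)) * N ≤ ε / (N + 1) * N :=
    mul_le_mul_of_nonneg_right (min_le_right _ _) hN0
  have h2 : ε / (N + 1) * N ≤ ε := by
    rw [div_mul_eq_mul_div, div_le_iff₀ (by positivity)]
    nlinarith
  linarith

/-- The centre estimates for a nested family. -/
theorem centers [FiniteDimensional ℝ E] {V : Type*} (pos : V → E) (F : V → Finset V) (d : ℝ)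
    (hd : 0 ≤ d) (hself : ∀ q, q ∈ F q) (hdiam : ∀ q, ∀ x ∈ F q, ‖pos x - pos q‖ ≤ d)
    (hnest : ∀ q q', ‖pos q - pos q'‖ ≤ 1 → F q ⊆ F q' ∨ F q' ⊆ F q) :
    ∃ (z : V → E) (s : V → ℝ), (∀ q, 0 ≤ s q) ∧ (∀ q, s q ≤ d ^ 2) ∧ (∀ q, ‖z q - pos q‖ ≤ d) ∧
      ∀ q q', ‖pos q - pos q'‖ ≤ 1 → ‖z q - z q'‖ ^ 2 ≤ |s q - s q'| := by
  classical
  have hne : ∀ q, ((F q).image pos).Nonempty := fun q => ⟨pos q, Finset.mem_image_of_mem _ (hself q)⟩
  choose z hz using fun q => rad_exists_min ((F q).image pos) (hne q)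
  have hradq : ∀ q, rad ((F q).image pos) (hne q) (pos q) ≤ d ^ 2 := by
    intro q
    apply rad_le
    intro x hx
    obtain ⟨v, hv, rfl⟩ := Finset.mem_image.1 hx
    exact pow_le_pow_left₀ (norm_nonneg _) (hdiam q v hv) 2
  have hpos : ∀ q y, 0 ≤ rad ((F q).image pos) (hne q) y := by
    intro q y
    exact le_trans (by positivity) (le_rad _ (hne q) y (Finset.mem_image_of_mem _ (hself q)))
  refine ⟨z, fun q => rad ((F q).image pos) (hne q) (z q), fun q => hpos q _,
    fun q => (hz q _).trans (hradq q), ?_, ?_⟩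
  · intro q
    have h1 := rad_strong _ (hne q) (z q) (hz q) (pos q)
    have h2 := hradq q
    have h3 := hpos q (z q)
    have h4 : ‖pos q - z q‖ ^ 2 ≤ d ^ 2 := by linarith
    rw [norm_sub_rev]
    exact (sq_le_sq₀ (norm_nonneg _) hd).1 h4
  · have key : ∀ q q', F q ⊆ F q' → ‖z q - z q'‖ ^ 2 ≤
        |rad ((F q).image pos) (hne q) (z q) - rad ((F q').image pos) (hne q') (z q')| := by
      intro q q' hsub
      have h1 := rad_strong _ (hne q) (z q) (hz q) (z q')
      have h2 : rad ((F q).image pos) (hne q) (z q') ≤ rad ((F q').image pos) (hne q') (z q') := by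
        apply rad_le
        intro x hx
        exact le_rad _ (hne q') _ (Finset.image_subset_image hsub hx)
      rw [norm_sub_rev, abs_sub_comm]
      refine le_trans ?_ (le_abs_self _)
      linarith
    intro q q' hqq
    rcases hnest q q' hqq with h | h
    · exact key q q' h
    · rw [norm_sub_rev, abs_sub_comm]
      exact key q' q h

end Cheb

section Graph

variable {V : Type*}

/-- `π`-increasing walk -/
def Inc (π : V → ℝ) {G : SimpleGraph V} {u v : V} (p : G.Walk u v) : Prop :=
  (p.support.map π).Pairwise (· < ·)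

/-- `d`-diameter ordering: `π` is injective and the vertices of every `π`-increasing path are
pairwise at distance at most `d` in `G`. -/
def IsDiamOrdering (G : SimpleGraph V) (π : V → ℝ) (d : ℕ) : Prop :=
  Function.Injective π ∧ ∀ (u v : V) (p : G.Walk u v), p.IsPath →
    (p.support.map π).Pairwise (· < ·) → ∀ x ∈ p.support, ∀ y ∈ p.support, G.dist x y ≤ d

/-- one increasing step -/
def Step (G : SimpleGraph V) (π : V → ℝ) (a b : V) : Prop := G.Adj a b ∧ π a < π b

theorem exists_path (G : SimpleGraph V) (π : V → ℝ) {q x : V}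
    (h : Relation.ReflTransGen (Step G π) q x) :
    ∃ p : G.Walk q x, p.IsPath ∧ (p.support.map π).Pairwise (· < ·) := by
  induction h using Relation.ReflTransGen.head_induction_on with
  | refl => exact ⟨SimpleGraph.Walk.nil, by simp, by simp⟩
  | head hab hbc ih =>
    rename_i a c
    obtain ⟨p, hp, hinc⟩ := ih
    have hlt : ∀ y ∈ p.support, π a < π y := by
      intro y hy
      cases p with
      | nil => 
        simp at hy
        rw [hy]; exact hab.2
      | cons h' p' =>
        simp only [SimpleGraph.Walk.support_cons, List.map_cons, List.pairwise_cons] at hinc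
        simp only [SimpleGraph.Walk.support_cons, List.mem_cons] at hy
        rcases hy with rfl | hy
        · exact hab.2
        · exact hab.2.trans (hinc.1 _ (List.mem_map_of_mem hy))
    refine ⟨SimpleGraph.Walk.cons hab.1 p, ?_, ?_⟩
    · rw [SimpleGraph.Walk.cons_isPath_iff]
      exact ⟨hp, fun hmem => lt_irrefl _ (hlt a hmem)⟩
    · simp only [SimpleGraph.Walk.support_cons, List.map_cons, List.pairwise_cons]
      refine ⟨?_, hinc⟩
      intro r hr
      obtain ⟨y, hy, rfl⟩ := List.mem_map.1 hr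
      exact hlt y hy

variable {E : Type*} [NormedAddCommGroup E] [InnerProductSpace ℝ E]

theorem norm_le_length (G : SimpleGraph V) (pos : V → E)
    (hG : ∀ a b, G.Adj a b → ‖pos a - pos b‖ ≤ 1) {u v : V} (p : G.Walk u v) :
    ‖pos u - pos v‖ ≤ p.length := by
  induction p with
  | nil => simp
  | cons h p ih =>
    rename_i a b c
    rw [SimpleGraph.Walk.length_cons]
    push_cast
    have h1 := hG _ _ h
    have h2 := norm_sub_le_norm_sub_add_norm_sub (pos a) (pos b) (pos c)
    linarith

/-- the centres attached to a `d`-diameter ordering -/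
theorem centers_of_ordering [FiniteDimensional ℝ E] [Fintype V] (G : SimpleGraph V)
    (pos : V → E) (hG : ∀ a b, G.Adj a b ↔ a ≠ b ∧ ‖pos a - pos b‖ ≤ 1) (π : V → ℝ) (d : ℕ)
    (h : IsDiamOrdering G π d) :
    ∃ (z : V → E) (s : V → ℝ), (∀ q, 0 ≤ s q) ∧ (∀ q, s q ≤ (d : ℝ) ^ 2) ∧
      (∀ q, ‖z q - pos q‖ ≤ d) ∧
      ∀ q q', ‖pos q - pos q'‖ ≤ 1 → ‖z q - z q'‖ ^ 2 ≤ |s q - s q'| := by
  classical
  obtain ⟨hinj, hpath⟩ := h
  refine centers pos (fun q => Finset.univ.filter fun x => Relation.ReflTransGen (Step G π) q x)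
    (d : ℝ) (by positivity) ?_ ?_ ?_
  · intro q
    simp only [Finset.mem_filter, Finset.mem_univ, true_and]
    exact Relation.ReflTransGen.refl
  · intro q x hx
    simp only [Finset.mem_filter, Finset.mem_univ, true_and] at hx
    obtain ⟨p, hp, hinc⟩ := exists_path G π hx
    have h1 := hpath q x p hp hinc x p.end_mem_support q p.start_mem_support
    have hreach : G.Reachable x q := ⟨p.reverse⟩
    obtain ⟨p', hp'⟩ := hreach.exists_walk_length_eq_dist
    have h2 := norm_le_length G pos (fun a b hab => ((hG a b).1 hab).2) p'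
    rw [hp'] at h2
    exact h2.trans (by exact_mod_cast h1)
  · intro q q' hqq
    by_cases heq : q = q'
    · left; rw [heq]
    · have hadj : G.Adj q q' := (hG q q').2 ⟨heq, hqq⟩
      rcases lt_or_gt_of_ne (hinj.ne heq) with hlt | hlt
      · right
        intro x hx
        simp only [Finset.mem_filter, Finset.mem_univ, true_and] at hx ⊢
        exact Relation.ReflTransGen.head ⟨hadj, hlt⟩ hx
      · left
        intro x hx
        simp only [Finset.mem_filter, Finset.mem_univ, true_and] at hx ⊢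
        exact Relation.ReflTransGen.head ⟨hadj.symm, hlt⟩ hx

end Graph

end Pool.Agent.W984.LD
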