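import Pool.Agent.W984.LD.An5
import Pool.Agent.W984.LD.Cheb

/-! # No low-diameter ordering of the lattice graph -/

namespace Pool.Agent.W984.LD

set_option linter.unusedSectionVars false

/-- position of a lattice point -/
noncomputable def lpos {k N : ℕ} (η : ℝ) (v : Fin k → Fin (2 * N + 1)) : Eu k :=
  WithLp.toLp 2 (fun a => η * (((v a : ℕ) : ℝ) - N))

theorem lpos_cover {k N : ℕ} (η R : ℝ) (hη : 0 < η) (hRN : R ≤ η * N) (p : Eu k) (hp : ‖p‖ ≤ R) :
    ∃ v : Fin k → Fin (2 * N + 1), ‖p - lpos η v‖ ≤ η * Real.sqrt k := by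
  have hcoord : ∀ a, |p a| ≤ η * N := by
    intro a
    have h1 := PiLp.norm_apply_le p a
    rw [Real.norm_eq_abs] at h1
    linarith
  have ht0 : ∀ a, 0 ≤ p a / η + N := by
    intro a
    have h1 := (abs_le.1 (hcoord a)).1
    have h2 : -(N : ℝ) ≤ p a / η := by
      rw [le_div_iff₀ hη]; linarith
    linarith
  have ht1 : ∀ a, p a / η + N ≤ 2 * N := by
    intro a
    have h1 := (abs_le.1 (hcoord a)).2
    have h2 : p a / η ≤ N := by
      rw [div_le_iff₀ hη]; linarith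
    linarith
  have hfl : ∀ a, ⌊p a / η + N⌋₊ < 2 * N + 1 := by
    intro a
    rw [Nat.lt_succ_iff]
    have h1 : (⌊p a / η + N⌋₊ : ℝ) ≤ 2 * N := (Nat.floor_le (ht0 a)).trans (ht1 a)
    exact_mod_cast h1
  refine ⟨fun a => ⟨⌊p a / η + N⌋₊, hfl a⟩, ?_⟩
  apply norm_le_of_coord _ _ hη.le
  intro a
  have h1 := Nat.floor_le (ht0 a)
  have h2 := Nat.lt_floor_add_one (p a / η + N)
  have h3 : (p - lpos η fun a => ⟨⌊p a / η + N⌋₊, hfl a⟩) a =
      η * ((p a / η + N) - (⌊p a / η + N⌋₊ : ℝ)) := by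
    simp only [lpos, PiLp.sub_apply]
    field_simp
    ring
  rw [h3, abs_mul, abs_of_pos hη]
  have h4 : |(p a / η + N) - (⌊p a / η + N⌋₊ : ℝ)| ≤ 1 := by
    rw [abs_le]
    constructor <;> linarith
  nlinarith

/-- numerical part -/
theorem numeric (k : ℕ) (d Γ : ℝ) (hk : 1 ≤ k) (hd : (k : ℝ) ≤ d)
    (hΓ0 : 0 ≤ Γ) (hΓ : 128 * d * Γ ≤ k * Real.sqrt k) :
    (3 * d * (3 * d / Real.sqrt k) ^ k *
      (Γ + k * (8 * (1 / 256) / (2 * d / Real.sqrt k))) ^ (k + 1) / ((k + 1).factorial : ℝ)) *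
        2 ^ k < 1 := by
  have hk1 : (1 : ℝ) ≤ k := by exact_mod_cast hk
  have hd0 : 0 < d := by linarith
  set s : ℝ := Real.sqrt k with hs
  have hs1 : 1 ≤ s := by rw [hs]; exact Real.one_le_sqrt.2 hk1
  have hs0 : 0 < s := by linarith
  have hss : s * s = k := Real.mul_self_sqrt (by positivity)
  have h1 : Γ + k * (8 * (1 / 256) / (2 * d / s)) ≤ 3 / 128 * (k * s) / d := by
    have h2 : k * (8 * (1 / 256) / (2 * d / s)) = 1 / 64 * (k * s) / d := by
      field_simp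
      norm_num
    have h3 : Γ ≤ 1 / 128 * (k * s) / d := by
      rw [le_div_iff₀ hd0]
      linarith
    rw [h2]
    calc Γ + 1 / 64 * (k * s) / d ≤ 1 / 128 * (k * s) / d + 1 / 64 * (k * s) / d := by linarith
      _ = 3 / 128 * (k * s) / d := by ring
  have h0 : 0 ≤ Γ + k * (8 * (1 / 256) / (2 * d / s)) := by positivity
  have h2 : (Γ + k * (8 * (1 / 256) / (2 * d / s))) ^ (k + 1) ≤ (3 / 128 * (k * s) / d) ^ (k + 1) :=
    pow_le_pow_left₀ h0 h1 _
  have h3 : (k : ℝ) ^ k / (k.factorial : ℝ) ≤ 3 ^ k := by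
    have h4 := Real.pow_div_factorial_le_exp (k : ℝ) (by positivity) k
    refine h4.trans ?_
    have h5 : Real.exp (k : ℝ) = (Real.exp 1) ^ k := by
      rw [← Real.exp_nat_mul, mul_one]
    rw [h5]
    exact pow_le_pow_left₀ (Real.exp_pos 1).le (by have := Real.exp_one_lt_d9; linarith) k
  have hfact : ((k + 1).factorial : ℝ) = (k + 1) * (k.factorial : ℝ) := by
    rw [Nat.factorial_succ]; push_cast; ring
  have hfpos : (0 : ℝ) < (k.factorial : ℝ) := by exact_mod_cast Nat.factorial_pos k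
  have h4 : 3 * d * (3 * d / s) ^ k * (3 / 128 * (k * s) / d) ^ (k + 1) / ((k + 1).factorial : ℝ) *
      2 ^ k = 9 / 128 * (k * s) / (k + 1) * ((18 / 128) ^ k * ((k : ℝ) ^ k / (k.factorial : ℝ))) := by
    rw [hfact, pow_succ (3 / 128 * (k * s) / d) k]
    have h5 : (3 * d / s) ^ k * (3 / 128 * (k * s) / d) ^ k * 2 ^ k = (18 / 128) ^ k * (k : ℝ) ^ k := by
      rw [← mul_pow, ← mul_pow, ← mul_pow]
      congr 1
      field_simp
      norm_num
    calc 3 * d * (3 * d / s) ^ k * ((3 / 128 * (k * s) / d) ^ k * (3 / 128 * (k * s) / d)) /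
          ((k + 1) * (k.factorial : ℝ)) * 2 ^ k
        = ((3 * d / s) ^ k * (3 / 128 * (k * s) / d) ^ k * 2 ^ k) *
          (3 * d * (3 / 128 * (k * s) / d)) / ((k + 1) * (k.factorial : ℝ)) := by ring
      _ = ((18 / 128) ^ k * (k : ℝ) ^ k) *
          (3 * d * (3 / 128 * (k * s) / d)) / ((k + 1) * (k.factorial : ℝ)) := by rw [h5]
      _ = _ := by field_simp; norm_num
  have h5 : 3 * d * (3 * d / s) ^ k * (Γ + k * (8 * (1 / 256) / (2 * d / s))) ^ (k + 1) /
      ((k + 1).factorial : ℝ) * 2 ^ k ≤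
      3 * d * (3 * d / s) ^ k * (3 / 128 * (k * s) / d) ^ (k + 1) / ((k + 1).factorial : ℝ) *
      2 ^ k := by
    gcongr
  refine lt_of_le_of_lt h5 ?_
  rw [h4]
  have h6 : (18 / 128 : ℝ) ^ k * ((k : ℝ) ^ k / (k.factorial : ℝ)) ≤ (1 / 2) ^ k := by
    calc (18 / 128 : ℝ) ^ k * ((k : ℝ) ^ k / (k.factorial : ℝ)) ≤ (18 / 128) ^ k * 3 ^ k := by
          gcongr
      _ = (54 / 128) ^ k := by rw [← mul_pow]; norm_num
      _ ≤ (1 / 2) ^ k := pow_le_pow_left₀ (by norm_num) (by norm_num) k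
  have h7 : (k : ℝ) ≤ 2 ^ k := by exact_mod_cast Nat.lt_two_pow_self.le
  have h8 : s ≤ k := by nlinarith
  have h9 : 9 / 128 * (k * s) / (k + 1) ≤ 9 / 128 * k := by
    rw [div_le_iff₀ (by positivity)]
    nlinarith
  calc 9 / 128 * (k * s) / (k + 1) * ((18 / 128) ^ k * ((k : ℝ) ^ k / (k.factorial : ℝ)))
      ≤ 9 / 128 * k * (1 / 2) ^ k := by gcongr
    _ ≤ 9 / 128 * 2 ^ k * (1 / 2) ^ k := by gcongr
    _ = 9 / 128 := by rw [mul_assoc, ← mul_pow]; norm_num
    _ < 1 := by norm_num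

/-- **No `d`-diameter ordering** for a geometric graph whose vertices contain a fine lattice. -/
theorem no_ordering (k d N : ℕ) (hk : 1 ≤ k) (hkd : k ≤ d) (β : ℝ)
    (hβ : β = 4 * Real.log (2 * (65536 * (d : ℝ) ^ 2 + 1)))
    (hd : 128 * d * (1 + 4 * β) ≤ k * Real.sqrt k)
    (hN : 32 * d * β * Real.sqrt k ≤ 3 * N) {V : Type} [Fintype V]
    (f : V → (Fin k → Fin (2 * N + 1))) (hf : Function.Surjective f) :
    ∃ G : SimpleGraph V, ∀ π : V → ℝ, ¬ IsDiamOrdering G π d := by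
  classical
  have hk1 : (1 : ℝ) ≤ k := by exact_mod_cast hk
  have hkd' : (k : ℝ) ≤ d := by exact_mod_cast hkd
  have hd1 : (1 : ℝ) ≤ d := hk1.trans hkd'
  have hd0 : (0 : ℝ) < d := by linarith
  set s : ℝ := Real.sqrt k with hs
  have hs1 : 1 ≤ s := by rw [hs]; exact Real.one_le_sqrt.2 hk1
  have hs0 : 0 < s := by linarith
  have hss : s * s = k := Real.mul_self_sqrt (by positivity)
  set m : ℕ := 65536 * d ^ 2 + 1 with hm
  have hmR : (m : ℝ) = 65536 * (d : ℝ) ^ 2 + 1 := by rw [hm]; push_cast; ring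
  have hm4 : (4 : ℝ) ≤ m := by rw [hmR]; nlinarith
  have hβpos : 0 < β := by
    rw [hβ]
    have : 0 < Real.log (2 * (65536 * (d : ℝ) ^ 2 + 1)) := Real.log_pos (by nlinarith)
    linarith
  set η : ℝ := 3 / (8 * β * s) with hη
  have hηpos : 0 < η := by rw [hη]; positivity
  set pos : V → Eu k := fun v => lpos η (f v) with hpos
  let G : SimpleGraph V :=
    { Adj := fun a b => a ≠ b ∧ ‖pos a - pos b‖ ≤ 1
      symm := ⟨fun a b h => ⟨h.1.symm, by rw [norm_sub_rev]; exact h.2⟩⟩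
      loopless := ⟨fun a h => h.1 rfl⟩ }
  refine ⟨G, fun π hπ => ?_⟩
  obtain ⟨z, sv, hs0', hsd, hzd, hzz⟩ := centers_of_ordering G pos (fun a b => Iff.rfl) π d hπ
  -- bins
  have hbin : ∀ q, ⌊65536 * sv q⌋₊ < m := by
    intro q
    rw [hm, Nat.lt_succ_iff]
    have h1 : (⌊65536 * sv q⌋₊ : ℝ) ≤ 65536 * (d : ℝ) ^ 2 :=
      (Nat.floor_le (by have := hs0' q; positivity)).trans (by have := hsd q; linarith)
    exact_mod_cast h1
  have hVne : Nonempty V := ⟨(hf (fun _ => 0)).choose⟩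
  -- bound for coordinates of centres
  obtain ⟨B, hB⟩ : ∃ B : ℝ, ∀ q a, |z q a| ≤ B := by
    refine ⟨∑ q, ∑ a, |z q a|, fun q a => ?_⟩
    calc |z q a| ≤ ∑ a, |z q a| :=
          Finset.single_le_sum (f := fun a => |z q a|) (fun a _ => abs_nonneg _) (Finset.mem_univ a)
      _ ≤ _ := Finset.single_le_sum (f := fun q => ∑ a, |z q a|)
          (fun q _ => Finset.sum_nonneg fun a _ => abs_nonneg _) (Finset.mem_univ q)
  have hB0 : 0 ≤ B := (abs_nonneg _).trans (hB hVne.some ⟨0, hk⟩)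
  let D : Cfg k m :=
    { V := V
      fV := inferInstance
      nV := hVne
      pos := pos
      z := z
      bin := fun q => ⟨⌊65536 * sv q⌋₊, hbin q⟩
      β := β
      ε := 1 / 256
      M := 8 * (B + 1)
      C0 := B + 1
      d := d
      hβ := hβpos
      hε := by norm_num
      hM0 := by positivity
      hd := by positivity
      hzd := hzd
      hadj := by
        intro q q' hqq
        have h1 := hzz q q' hqq
        refine h1.trans ?_
        simp only
        have h2 := Nat.floor_le (by have := hs0' q; positivity : 0 ≤ 65536 * sv q)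
        have h3 := Nat.lt_floor_add_one (65536 * sv q)
        have h4 := Nat.floor_le (by have := hs0' q'; positivity : 0 ≤ 65536 * sv q')
        have h5 := Nat.lt_floor_add_one (65536 * sv q')
        set u : ℝ := (⌊65536 * sv q⌋₊ : ℝ) with hu
        set u' : ℝ := (⌊65536 * sv q'⌋₊ : ℝ) with hu'
        have h6 := le_abs_self (u - u')
        have h7 := neg_abs_le (u - u')
        have h8 : |sv q - sv q'| ≤ 1 / 65536 * (|u - u'| + 1) := by
          rw [abs_le]
          constructor <;> linarith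
        refine h8.trans (le_of_eq ?_)
        norm_num
      hC0 := by
        intro q a
        have := (abs_le.1 (hB q a)).2
        linarith
      hM := by
        intro q q' a
        have h1 := (abs_le.1 (hB q' a)).2
        have h2 := (abs_le.1 (hB q a)).1
        linarith }
  have hDβ : D.β = β := rfl
  have hDε : D.ε = 1 / 256 := rfl
  have hDd : D.d = (d : ℝ) := rfl
  have hc : D.c = 1 / (2 * m) := by
    unfold Cfg.c
    rw [hDβ, hβ, ← hmR]
    have h1 : -(4 * Real.log (2 * (m : ℝ))) / 4 = -Real.log (2 * (m : ℝ)) := by ring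
    rw [h1, Real.exp_neg, Real.exp_log (by positivity), one_div]
  have hmc : m * D.c ≤ 1 / 2 := by
    rw [hc]
    have : (m : ℝ) ≠ 0 := by positivity
    apply le_of_eq
    field_simp
  have hrm : 1 / 2 + D.c ≤ Real.exp (-D.β * (η * s)) := by
    have h1 : D.c ≤ 1 / 8 := by
      rw [hc]
      rw [div_le_div_iff₀ (by positivity) (by norm_num)]
      linarith
    have h2 : -D.β * (η * s) = -(3 / 8) := by
      rw [hDβ, hη]
      field_simp
    rw [h2]
    have := Real.add_one_le_exp (-(3 / 8) : ℝ)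
    linarith
  have hdisp : (d : ℝ) + 1 / 4 + 2 * (1 / 256) * s ≤ 2 * d := by
    have : s ≤ k := by nlinarith
    linarith
  have hcov : ∀ p : Eu k, ‖p‖ ≤ 4 * (d : ℝ) → ∃ q, ‖p - D.pos q‖ ≤ η * s := by
    intro p hp
    have hRN : 4 * (d : ℝ) ≤ η * N := by
      rw [hη, div_mul_eq_mul_div, le_div_iff₀ (by positivity)]
      linarith
    obtain ⟨v, hv⟩ := lpos_cover η (4 * (d : ℝ)) hηpos hRN p hp
    obtain ⟨q, rfl⟩ := hf v
    exact ⟨q, hv⟩
  have hmain := D.main_ineq (4 * (d : ℝ)) (η * s) (by positivity) hcov hrm hmc (2 * (d : ℝ))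
    (by rw [hDd, hDε]; exact hdisp) (by linarith) (2 * d / s) (3 * d) (3 * d / s)
    (by positivity) (by positivity) (by positivity)
    (by
      rw [hDd, hDε]
      have h1 : ((d : ℝ) + 1 / 4 + 2 * (1 / 256) * s) ^ 2 ≤ (2 * (d : ℝ)) ^ 2 :=
        pow_le_pow_left₀ (by positivity) hdisp 2
      nlinarith)
    (by
      apply pow_le_pow_left₀ (by positivity)
      rw [div_le_iff₀ hs0]
      nlinarith)
    (by
      rw [hDε, hmR]
      have h1 : (k : ℝ) * (2 * d / s) ^ 2 = 4 * (d : ℝ) ^ 2 := by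
        rw [div_pow, ← hss]; field_simp; norm_num
      have h2 : (k : ℝ) * (3 * d / s) ^ 2 = 9 * (d : ℝ) ^ 2 := by
        rw [div_pow, ← hss]; field_simp; norm_num
      rw [h2, mul_add (k : ℝ), h1]
      have h3 : (k : ℝ) ^ 2 ≤ (d : ℝ) ^ 2 := pow_le_pow_left₀ (by positivity) hkd' 2
      have h4 : (k : ℝ) ≤ (k : ℝ) ^ 2 := by nlinarith
      nlinarith)
  have hnum := numeric k d (1 + 4 * β) hk hkd' (by positivity) hd
  rw [hDβ, hDε] at hmain
  have h2d : (4 * (d : ℝ) - 2 * d) ^ k = (2 * (d : ℝ)) ^ k := by ring_nf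
  have h4d : (4 * (d : ℝ)) ^ k = 2 ^ k * (2 * (d : ℝ)) ^ k := by
    rw [← mul_pow]; ring_nf
  rw [h2d, h4d, ← mul_assoc] at hmain
  have hpos' : 0 < (2 * (d : ℝ)) ^ k := by positivity
  have h5 := mul_lt_mul_of_pos_right hnum hpos'
  rw [one_mul] at h5
  exact absurd (lt_of_le_of_lt hmain h5) (lt_irrefl _)

end Pool.Agent.W984.LD
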