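import Pool.Agent.W984.LD.An6

/-! # Asymptotics -/

namespace Pool.Agent.W984.LD

open Filter

theorem rpow_three_half (x : ℝ) (hx : 0 < x) : x ^ (3 / 2 : ℝ) = x * Real.sqrt x := by
  have h : (3 / 2 : ℝ) = 1 + 1 / 2 := by norm_num
  rw [h, Real.rpow_add hx, Real.rpow_one, Real.sqrt_eq_rpow]

theorem rpow_five_half (x : ℝ) (hx : 0 < x) : x ^ (5 / 2 : ℝ) = x ^ 2 * Real.sqrt x := by
  have h : (5 / 2 : ℝ) = 2 + 1 / 2 := by norm_num
  rw [h, Real.rpow_add hx, Real.rpow_two, Real.sqrt_eq_rpow]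

/-- powers of `log log n` are eventually below `log n` -/
theorem eventually_pow_le (A : ℝ) (j : ℕ) :
    ∀ᶠ n : ℕ in atTop, A * (Real.log (Real.log n)) ^ j ≤ Real.log n := by
  have h1 : Tendsto (fun n : ℕ => Real.log (n : ℝ)) atTop atTop :=
    Real.tendsto_log_atTop.comp tendsto_natCast_atTop_atTop
  have h2 : ∀ᶠ x : ℝ in atTop, A * (Real.log x) ^ j ≤ x := by
    have h3 := (Real.isLittleO_pow_log_id_atTop (n := j)).bound
      (show (0 : ℝ) < 1 / (|A| + 1) by positivity)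
    filter_upwards [h3, eventually_ge_atTop (0 : ℝ)] with x hx hx0
    rw [Real.norm_eq_abs, Real.norm_eq_abs, id, abs_of_nonneg hx0] at hx
    have h4 : A * (Real.log x) ^ j ≤ (|A| + 1) * |Real.log x ^ j| := by
      calc A * (Real.log x) ^ j ≤ |A * (Real.log x) ^ j| := le_abs_self _
        _ = |A| * |Real.log x ^ j| := abs_mul _ _
        _ ≤ _ := mul_le_mul_of_nonneg_right (by linarith) (abs_nonneg _)
    refine h4.trans ?_
    have h5 : 0 < |A| + 1 := by positivity
    calc (|A| + 1) * |Real.log x ^ j| ≤ (|A| + 1) * (1 / (|A| + 1) * x) :=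
          mul_le_mul_of_nonneg_left hx h5.le
      _ = x := by field_simp
  exact h1.eventually h2

/-- **Key statement.** -/
theorem key : ∀ᶠ n : ℕ in atTop, ∃ d : ℕ,
    1 / 66560 * (Real.log n) ^ (3 / 2 : ℝ) / (Real.log (Real.log n)) ^ (5 / 2 : ℝ) ≤ (d : ℝ) + 1 ∧
    ∃ G : SimpleGraph (Fin n), ∀ π : Fin n → ℝ, ¬ IsDiamOrdering G π d := by
  have hlogt : Tendsto (fun n : ℕ => Real.log (n : ℝ)) atTop atTop :=
    Real.tendsto_log_atTop.comp tendsto_natCast_atTop_atTop
  have hloglogt : Tendsto (fun n : ℕ => Real.log (Real.log (n : ℝ))) atTop atTop :=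
    Real.tendsto_log_atTop.comp hlogt
  filter_upwards [eventually_pow_le 1000000000 3, hloglogt.eventually_ge_atTop 1,
    hlogt.eventually_ge_atTop 131074, eventually_ge_atTop 1] with n hpow hℓ1 hL hn1
  set L : ℝ := Real.log n with hLdef
  set l : ℝ := Real.log L with hldef
  have hL0 : 0 < L := by linarith
  have hl0 : 0 < l := by linarith
  have hn0 : (0 : ℝ) < n := by exact_mod_cast hn1
  set k : ℕ := ⌊L / (2 * l)⌋₊ with hk
  -- size of k
  have hquot : L / (4 * l) ≥ 250000000 * l ^ 2 := by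
    rw [ge_iff_le, le_div_iff₀ (by positivity)]
    have h1 : 250000000 * l ^ 2 * (4 * l) = 1000000000 * l ^ 3 := by ring
    rw [h1]
    exact hpow
  have hl2 : 1 ≤ l ^ 2 := one_le_pow₀ hℓ1
  have hkL : (k : ℝ) ≤ L / (2 * l) := Nat.floor_le (by positivity)
  have hkU : L / (2 * l) < k + 1 := Nat.lt_floor_add_one _
  have hhalf : L / (2 * l) = L / (4 * l) + L / (4 * l) := by field_simp; norm_num
  have hkl : L / (4 * l) ≤ k := by
    rw [hhalf] at hkU
    linarith
  have hkbig : (8320 * l) ^ 2 ≤ k := by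
    have h1 : (8320 * l) ^ 2 = 69222400 * l ^ 2 := by ring
    rw [h1]
    linarith
  have hk2 : (2 : ℝ) ≤ k := by linarith
  have hk1 : (1 : ℝ) ≤ k := by linarith
  have hk0 : (0 : ℝ) < k := by linarith
  set s : ℝ := Real.sqrt k with hs
  have hsl : 8320 * l ≤ s := by
    rw [hs]; exact Real.le_sqrt_of_sq_le hkbig
  have hs0 : 0 < s := by linarith
  have hss : s * s = k := Real.mul_self_sqrt hk0.le
  set d : ℕ := ⌊k * s / (8320 * l)⌋₊ with hd
  have hdU : (d : ℝ) ≤ k * s / (8320 * l) := Nat.floor_le (by positivity)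
  have hdL : k * s / (8320 * l) < d + 1 := Nat.lt_floor_add_one _
  have hkd : k ≤ d := by
    rw [hd]
    apply Nat.le_floor
    rw [le_div_iff₀ (by positivity)]
    exact mul_le_mul_of_nonneg_left hsl hk0.le
  have hkd' : (k : ℝ) ≤ d := by exact_mod_cast hkd
  have hdl : (d : ℝ) * (8320 * l) ≤ k * s := by
    rwa [le_div_iff₀ (by positivity)] at hdU
  have hkleL : (k : ℝ) ≤ L := by
    refine hkL.trans ?_
    rw [div_le_iff₀ (by positivity)]
    exact le_mul_of_one_le_right hL0.le (by linarith)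
  -- the parameter β
  set β : ℝ := 4 * Real.log (2 * (65536 * (d : ℝ) ^ 2 + 1)) with hβ
  have hdk : (d : ℝ) ≤ k * s := by
    have h1 : (d : ℝ) * 1 ≤ d * (8320 * l) := mul_le_mul_of_nonneg_left (by linarith) (by linarith)
    linarith
  have hd2 : (d : ℝ) ^ 2 ≤ L ^ 3 := by
    calc (d : ℝ) ^ 2 ≤ (k * s) ^ 2 := pow_le_pow_left₀ (by positivity) hdk 2
      _ = k ^ 2 * (s * s) := by ring
      _ = (k : ℝ) ^ 3 := by rw [hss]; ring
      _ ≤ L ^ 3 := pow_le_pow_left₀ hk0.le hkleL 3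
  have hβl : β ≤ 16 * l := by
    have h1 : Real.log (2 * (65536 * (d : ℝ) ^ 2 + 1)) ≤ 4 * l := by
      have h2 : 4 * l = Real.log (L ^ 4) := by rw [Real.log_pow, ← hldef]; norm_num
      rw [h2]
      apply Real.log_le_log (by positivity)
      have h3 : (1 : ℝ) ≤ L ^ 3 := one_le_pow₀ (by linarith)
      have h4 : L ^ 4 = L * L ^ 3 := by ring
      have h5 : 131074 * L ^ 3 ≤ L * L ^ 3 := mul_le_mul_of_nonneg_right hL (by positivity)
      rw [h4]
      linarith
    rw [hβ]; linarith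
  have hβ0 : 0 ≤ β := by
    rw [hβ]
    have : 0 ≤ Real.log (2 * (65536 * (d : ℝ) ^ 2 + 1)) := Real.log_nonneg (by linarith [sq_nonneg (d : ℝ)])
    linarith
  have hcond : 128 * (d : ℝ) * (1 + 4 * β) ≤ k * s := by
    have h1 : 128 * (1 + 4 * β) ≤ 8320 * l := by linarith
    have h2 : (d : ℝ) * (128 * (1 + 4 * β)) ≤ d * (8320 * l) :=
      mul_le_mul_of_nonneg_left h1 (by positivity)
    linarith
  -- the parameter N
  set N : ℕ := ⌈32 * (d : ℝ) * β * s / 3⌉₊ with hN
  have hNL : 32 * (d : ℝ) * β * s ≤ 3 * N := by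
    have := Nat.le_ceil (32 * (d : ℝ) * β * s / 3)
    rw [← hN] at this
    linarith
  have hNU : (N : ℝ) < 32 * (d : ℝ) * β * s / 3 + 1 := Nat.ceil_lt_add_one (by positivity)
  have hN2 : 2 * (N : ℝ) + 1 ≤ (k : ℝ) ^ 2 := by
    have h1 : (d : ℝ) * β ≤ 16 / 8320 * (k * s) := by
      have h2 : (d : ℝ) * β ≤ d * (16 * l) := mul_le_mul_of_nonneg_left hβl (by positivity)
      linarith
    have h3 : (d : ℝ) * β * s ≤ 16 / 8320 * (k * s) * s := mul_le_mul_of_nonneg_right h1 hs0.le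
    have h4 : 16 / 8320 * (k * s) * s = 16 / 8320 * (k : ℝ) ^ 2 := by
      calc 16 / 8320 * (k * s) * s = 16 / 8320 * (k * (s * s)) := by ring
        _ = _ := by rw [hss]; ring
    rw [h4] at h3
    have h5 : (4 : ℝ) ≤ (k : ℝ) ^ 2 := by
      have := pow_le_pow_left₀ (by norm_num : (0 : ℝ) ≤ 2) hk2 2
      linarith
    have h6 : 32 * (d : ℝ) * β * s / 3 = 32 / 3 * ((d : ℝ) * β * s) := by ring
    rw [h6] at hNU
    linarith
  have hcard : (2 * N + 1) ^ k ≤ n := by
    have h1 : ((2 * (N : ℝ) + 1)) ^ k ≤ ((k : ℝ) ^ 2) ^ k := pow_le_pow_left₀ (by positivity) hN2 k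
    have h2 : ((k : ℝ) ^ 2) ^ k ≤ n := by
      have h3 : ((k : ℝ) ^ 2) ^ k = Real.exp (k * (2 * Real.log k)) := by
        rw [Real.exp_nat_mul]
        congr 1
        have : (2 : ℝ) * Real.log k = Real.log ((k : ℝ) ^ 2) := by rw [Real.log_pow]; norm_num
        rw [this, Real.exp_log (by positivity)]
      rw [h3]
      have h4 : (n : ℝ) = Real.exp L := by rw [hLdef, Real.exp_log hn0]
      rw [h4, Real.exp_le_exp]
      have h5 : Real.log k ≤ l := Real.log_le_log hk0 hkleL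
      have h6 : (k : ℝ) * (2 * Real.log k) ≤ k * (2 * l) :=
        mul_le_mul_of_nonneg_left (by linarith) hk0.le
      have h7 : (k : ℝ) * (2 * l) ≤ L := by
        rwa [le_div_iff₀ (by positivity)] at hkL
      linarith
    have h3 : (((2 * N + 1) ^ k : ℕ) : ℝ) ≤ (n : ℝ) := by
      push_cast
      exact h1.trans h2
    exact_mod_cast h3
  have hemb : Nonempty ((Fin k → Fin (2 * N + 1)) ↪ Fin n) := by
    apply Function.Embedding.nonempty_of_card_le
    simpa using hcard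
  obtain ⟨e⟩ := hemb
  have hk1' : 1 ≤ k := by exact_mod_cast hk1
  have hsurj : Function.Surjective (Function.invFun e) := Function.invFun_surjective e.injective
  refine ⟨d, ?_, no_ordering k d N hk1' hkd β hβ hcond hNL (Function.invFun e) hsurj⟩
  refine le_trans ?_ hdL.le
  rw [rpow_three_half L hL0, rpow_five_half l hl0]
  have hsq : Real.sqrt L / (2 * Real.sqrt l) ≤ s := by
    have h1 : Real.sqrt (L / (4 * l)) = Real.sqrt L / (2 * Real.sqrt l) := by
      rw [Real.sqrt_div hL0.le, Real.sqrt_mul (by norm_num)]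
      congr 2
      rw [show (4 : ℝ) = 2 ^ 2 by norm_num, Real.sqrt_sq (by norm_num)]
    rw [← h1, hs]
    exact Real.sqrt_le_sqrt hkl
  have hsl0 : 0 < Real.sqrt l := Real.sqrt_pos.2 hl0
  have hprod : L / (4 * l) * (Real.sqrt L / (2 * Real.sqrt l)) ≤ k * s :=
    mul_le_mul hkl hsq (by positivity) hk0.le
  calc 1 / 66560 * (L * Real.sqrt L) / (l ^ 2 * Real.sqrt l)
      = L / (4 * l) * (Real.sqrt L / (2 * Real.sqrt l)) / (8320 * l) := by field_simp; norm_num
    _ ≤ k * s / (8320 * l) := by gcongr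

end Pool.Agent.W984.LD
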