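import Pool.Agent.H524R2.Forster
import Pool.Agent.H801R3.SB.CB

/-! # A determinant bound (Cauchy-Binet, Hadamard, sorted differences) -/

namespace Pool.Agent.W984.LD

open Matrix Finset

/-- Hadamard's inequality with bounds for the rows. -/
theorem abs_det_le {n : ℕ} (M : Matrix (Fin n) (Fin n) ℝ) (r : Fin n → ℝ) (hr : ∀ i, 0 ≤ r i)
    (h : ∀ i, M i ⬝ᵥ M i ≤ r i ^ 2) : |M.det| ≤ ∏ i, r i := by
  have h1 := Pool.Agent.H524R2.hadamard_ineq M
  have h2 : M.det ^ 2 ≤ (∏ i, r i) ^ 2 := by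
    refine h1.trans ?_
    rw [← Finset.prod_pow]
    exact Finset.prod_le_prod
      (fun i _ => Finset.sum_nonneg fun j _ => mul_self_nonneg _) (fun i _ => h i)
  exact abs_le_of_sq_le_sq h2 (Finset.prod_nonneg fun i _ => hr i)

/-- AM-GM in the form needed here. -/
theorem prod_le_of_sum_le {k : ℕ} (x : Fin k → ℝ) (hx : ∀ i, 0 ≤ x i) (X : ℝ)
    (h : ∑ i, x i ≤ k * X) : ∏ i, x i ≤ X ^ k := by
  rcases Nat.eq_zero_or_pos k with hk | hk
  · subst hk; simp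
  have hk' : (0 : ℝ) < k := by exact_mod_cast hk
  have h1 := Real.geom_mean_le_arith_mean_weighted (Finset.univ : Finset (Fin k))
    (fun _ => (1 : ℝ) / k) x (fun _ _ => by positivity)
    (by simp [Finset.sum_const]; field_simp) (fun i _ => hx i)
  have h2 : ∑ i, (1 : ℝ) / k * x i ≤ X := by
    rw [← Finset.mul_sum]
    rw [one_div, inv_mul_le_iff₀ hk']
    exact h
  have h3 : (∏ i, x i ^ ((1 : ℝ) / k)) ^ k ≤ X ^ k :=
    pow_le_pow_left₀ (Finset.prod_nonneg fun i _ => Real.rpow_nonneg (hx i) _) (h1.trans h2) k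
  refine le_trans (le_of_eq ?_) h3
  rw [← Finset.prod_pow]
  refine Finset.prod_congr rfl fun i _ => ?_
  rw [← Real.rpow_natCast, ← Real.rpow_mul (hx i)]
  rw [one_div, inv_mul_cancel₀ hk'.ne', Real.rpow_one]

/-- Hadamard plus AM-GM, first row separate. -/
theorem abs_det_le_amgm {k : ℕ} (M : Matrix (Fin (k + 1)) (Fin (k + 1)) ℝ) (ρ T : ℝ) (hρ : 0 ≤ ρ)
    (hT : 0 ≤ T) (h0 : M 0 ⬝ᵥ M 0 ≤ ρ ^ 2)
    (h : ∑ i : Fin k, M i.succ ⬝ᵥ M i.succ ≤ k * T ^ 2) : |M.det| ≤ ρ * T ^ k := by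
  have hnn : ∀ i, 0 ≤ M i ⬝ᵥ M i := fun i => Finset.sum_nonneg fun j _ => mul_self_nonneg _
  have h1 := Pool.Agent.H524R2.hadamard_ineq M
  have h2 : M.det ^ 2 ≤ (ρ * T ^ k) ^ 2 := by
    refine h1.trans ?_
    rw [Fin.prod_univ_succ, mul_pow]
    refine mul_le_mul h0 ?_ (Finset.prod_nonneg fun i _ => hnn _) (by positivity)
    have := prod_le_of_sum_le (fun i : Fin k => M i.succ ⬝ᵥ M i.succ) (fun i => hnn _) (T ^ 2) h
    refine this.trans (le_of_eq ?_)
    rw [← pow_mul, ← pow_mul, mul_comm]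
  exact abs_le_of_sq_le_sq h2 (by positivity)

section

variable {k m : ℕ} (ζ : Fin m → Fin k → ℝ) (lam : Fin m → ℝ) (g : Fin m → Fin k → ℝ)
  (B : Fin k → Fin k → ℝ) (τ : ℝ)

/-- left factor -/
def PP : Matrix (Fin (k + 1)) (Fin m ⊕ Fin k) ℝ := fun i x =>
  Fin.cases (Sum.elim (fun _ => (1 : ℝ)) (fun _ => 0) x)
    (fun a => Sum.elim (fun j => ζ j a) (fun c => if a = c then τ else 0) x) i

/-- right factor -/
noncomputable def QQ : Matrix (Fin m ⊕ Fin k) (Fin (k + 1)) ℝ := fun x i =>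
  Fin.cases (Sum.elim lam (fun _ => 0) x)
    (fun b => Sum.elim (fun j => g j b) (fun c => B c b / τ) x) i

theorem det_PQ (hτ : 0 < τ) (hlam : ∑ j, lam j = 1) (hg : ∀ b, ∑ j, g j b = 0) :
    (PP ζ τ * QQ lam g B τ).det =
      (Matrix.of fun a b : Fin k => ∑ j, ζ j a * g j b + B a b).det := by
  rw [Matrix.det_succ_row_zero, Fin.sum_univ_succ]
  have h0 : (PP ζ τ * QQ lam g B τ) 0 0 = 1 := by
    simp [Matrix.mul_apply, PP, QQ, Fintype.sum_sum_type, hlam]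
  have h1 : ∀ b : Fin k, (PP ζ τ * QQ lam g B τ) 0 b.succ = 0 := by
    intro b
    simp [Matrix.mul_apply, PP, QQ, Fintype.sum_sum_type, hg]
  rw [h0]
  simp only [h1]
  simp only [Fin.val_zero, pow_zero, one_mul, mul_zero, zero_mul, Finset.sum_const_zero, add_zero]
  congr 1
  ext a b
  simp only [Matrix.submatrix_apply, Matrix.of_apply, Matrix.mul_apply, Fintype.sum_sum_type]
  congr 1
  simp only [PP, QQ, Sum.elim_inr, Fin.cases_succ, Fin.zero_succAbove]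
  simp only [ite_mul, zero_mul, Finset.sum_ite_eq, Finset.mem_univ, if_true]
  field_simp

end

end Pool.Agent.W984.LD
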